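import Pool.Agent.KPX.Stmts

/-!
# Every facet is given to one of its vertices on one side of `c` (module KPX_Assign)
-/

set_option autoImplicit false

namespace KPX

open TPH KPH

namespace MAssign

theorem mem_sd {V : Finset (E × ℝ)} {σ : ℝ} {c x : E × ℝ} :
    x ∈ sd V σ c ↔ x ∈ V ∧ 0 < σ * (x.2 - c.2) := by
  classical
  simp [sd]

theorem mem_PJ {σ : ℝ} {c : E × ℝ} {X : Finset (E × ℝ)} {a : E} :
    a ∈ PJ σ c X ↔ ∃ x ∈ X, pj σ c x = a := by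
  classical
  simp [PJ]

theorem mem_dfil {ι : Type} {P : ι → Prop} {S : Finset ι} {g : ι}
    (h : g ∈ @Finset.filter ι P (Classical.decPred _) S) : g ∈ S ∧ P g :=
  (@Finset.mem_filter ι P (Classical.decPred _) S g).1 h

theorem two_exposed (hExp : StmtExpTwo) (hPj : StmtPj) (hPjMx : StmtPjMx) {ι : Type}
    {V : Finset (E × ℝ)} {G : Finset ι} {u : ι → E} {s q : ι → ℝ} (hD : Tr.Data V G u s q)
    {c : E × ℝ} {σ : ℝ} (hc : c ∈ V) (hσ : σ * σ = 1) {g : ι} (hg : g ∈ G)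
    (hcq : Tr.val (u g) (s g) c = q g)
    (hz : ∃ z ∈ sd V σ c, ∃ z' ∈ sd V σ c, z ≠ z' ∧
      Tr.val (u g) (s g) z = q g ∧ Tr.val (u g) (s g) z' = q g) :
    ∃ x x' : E × ℝ, (x ∈ sd V σ c ∧ ∃ w, Mx (PJ σ c (sd V σ c)) w = {pj σ c x}) ∧
      (x' ∈ sd V σ c ∧ ∃ w, Mx (PJ σ c (sd V σ c)) w = {pj σ c x'}) ∧ x ≠ x' ∧
      Tr.val (u g) (s g) x = q g ∧ Tr.val (u g) (s g) x' = q g := by
  classical
  obtain ⟨z, hz, z', hz', hne, hzq, hz'q⟩ := hz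
  have key : ∀ x ∈ sd V σ c,
      (pj σ c x ∈ Mx (PJ σ c (sd V σ c)) (u g) ↔ Tr.val (u g) (s g) x = q g) := by
    intro x hx
    have h1 := hPjMx V c σ hc hσ hD.exp (sd V σ c) (Finset.Subset.refl _) (u g) (s g)
      (fun v hv => by rw [hcq]; exact hD.nn g hg v hv) ⟨z, hz, by rw [hzq, hcq]⟩ x hx
    rw [hcq] at h1
    exact h1
  have hinj := (hPj V c σ hc hσ hD.exp).1
  have h2 : 2 ≤ (Mx (PJ σ c (sd V σ c)) (u g)).card :=
    Finset.one_lt_card.2 ⟨pj σ c z, (key z hz).2 hzq, pj σ c z', (key z' hz').2 hz'q,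
      fun h => hne (hinj z hz z' hz' h)⟩
  obtain ⟨a, ha, a', ha', haa, ⟨w, hw⟩, w', hw'⟩ := hExp _ _ h2
  obtain ⟨x, hx, rfl⟩ := mem_PJ.1 (Mx_subset _ _ ha)
  obtain ⟨x', hx', rfl⟩ := mem_PJ.1 (Mx_subset _ _ ha')
  exact ⟨x, x', ⟨hx, w, hw⟩, ⟨hx', w', hw'⟩, fun h => haa (by rw [h]), (key x hx).1 ha,
    (key x' hx').1 ha'⟩

end MAssign

open MAssign in
theorem t_Assign (hDeg : StmtDeg) (hExp : StmtExpTwo) (hPj : StmtPj) (hPjMx : StmtPjMx)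
    (hSparse : StmtSparse) : StmtAssign := by
  classical
  intro ι V G u s q hD c σ hc hσ S hSG hS
  have h1 : ∀ g : ι, ∃ x x' : E × ℝ, g ∈ S →
      (x ∈ sd V σ c ∧ ∃ w, Mx (PJ σ c (sd V σ c)) w = {pj σ c x}) ∧
      (x' ∈ sd V σ c ∧ ∃ w, Mx (PJ σ c (sd V σ c)) w = {pj σ c x'}) ∧ x ≠ x' ∧
      Tr.val (u g) (s g) x = q g ∧ Tr.val (u g) (s g) x' = q g := by
    intro g
    by_cases hg : g ∈ S
    · obtain ⟨x, x', h⟩ := two_exposed hExp hPj hPjMx hD hc hσ (hSG hg) (hS g hg).2.1 (hS g hg).2.2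
      exact ⟨x, x', fun _ => h⟩
    · exact ⟨c, c, fun h => absurd h hg⟩
  choose p p' hp using h1
  obtain ⟨x, hx, hfib⟩ := hDeg ι (E × ℝ) 28
    ((sd V σ c).filter (fun x => ∃ w, Mx (PJ σ c (sd V σ c)) w = {pj σ c x})) S p p'
    (fun g hg => ⟨Finset.mem_filter.2 (hp g hg).1, Finset.mem_filter.2 (hp g hg).2.1,
      (hp g hg).2.2.1⟩)
    (fun Y hY => hSparse ι V G u s q hD c σ hc hσ _ p p' Y
      (fun g hg => hSG (mem_dfil hg).1)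
      (fun y hy => (Finset.mem_filter.1 (hY hy)).1)
      (fun y hy => (Finset.mem_filter.1 (hY hy)).2)
      (fun g hg => by
        have hg' := mem_dfil hg
        have h := hp g hg'.1
        exact ⟨(hS g hg'.1).1, (hS g hg'.1).2.1, hg'.2.1, hg'.2.2, h.2.2.1, h.2.2.2.1,
          h.2.2.2.2⟩))
  refine ⟨x, fun g hg => ?_, fun v => hfib v⟩
  have h := hp g hg
  rcases hx g hg with he | he
  · rw [he]
    exact ⟨h.1.1, h.2.2.2.1⟩
  · rw [he]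
    exact ⟨h.2.1.1, h.2.2.2.2⟩

end KPX
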