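import Pool.Agent.KPX.Stmts

/-!
# Orientation of a sparse graph
-/

set_option autoImplicit false

namespace KPX

namespace MDeg

/-- Double counting: the degrees add up to at most twice the number of edges. -/
theorem sum_deg {ι β : Type} [DecidableEq β] (X : Finset β) (S : Finset ι) (p p' : ι → β) :
    ∑ v ∈ X, (S.filter (fun g => p g = v ∨ p' g = v)).card ≤ 2 * S.card := by
  have h1 : ∑ v ∈ X, (S.filter (fun g => p g = v ∨ p' g = v)).card
      = ∑ g ∈ S, (X.filter (fun v => p g = v ∨ p' g = v)).card := by
    simp only [Finset.card_filter]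
    exact Finset.sum_comm
  rw [h1]
  have h2 : ∀ g ∈ S, (X.filter (fun v => p g = v ∨ p' g = v)).card ≤ 2 := by
    intro g _
    have hsub : X.filter (fun v => p g = v ∨ p' g = v) ⊆ {p g, p' g} := by
      intro v hv
      rw [Finset.mem_filter] at hv
      rw [Finset.mem_insert, Finset.mem_singleton]
      rcases hv.2 with h | h
      · exact Or.inl h.symm
      · exact Or.inr h.symm
    exact (Finset.card_le_card hsub).trans Finset.card_le_two
  calc ∑ g ∈ S, (X.filter (fun v => p g = v ∨ p' g = v)).card
      ≤ S.card • 2 := Finset.sum_le_card_nsmul S _ 2 h2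
    _ = 2 * S.card := by rw [smul_eq_mul, mul_comm]

theorem main {ι β : Type} [DecidableEq β] (D : ℕ) (p p' : ι → β) :
    ∀ (n : ℕ) (X : Finset β) (S : Finset ι), X.card = n →
    (∀ g ∈ S, p g ∈ X ∧ p' g ∈ X ∧ p g ≠ p' g) →
    (∀ Y : Finset β, Y ⊆ X → (S.filter (fun g => p g ∈ Y ∧ p' g ∈ Y)).card ≤ D * Y.card) →
    ∃ x : ι → β, (∀ g ∈ S, x g = p g ∨ x g = p' g) ∧
      ∀ v : β, (S.filter (fun g => x g = v)).card ≤ 2 * D := by
  intro n
  induction n with
  | zero =>
    intro X S hX hS _
    have hX0 : X = ∅ := Finset.card_eq_zero.1 hX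
    have hS0 : S = ∅ := by
      rw [Finset.eq_empty_iff_forall_notMem]
      intro g hg
      have := (hS g hg).1
      rw [hX0] at this
      exact Finset.notMem_empty _ this
    refine ⟨p, fun g _ => Or.inl rfl, fun v => ?_⟩
    rw [hS0]
    simp
  | succ n ih =>
    intro X S hX hS hD
    have hcard : S.card ≤ D * X.card := by
      have := hD X (Finset.Subset.refl X)
      rwa [Finset.filter_true_of_mem (fun g hg => ⟨(hS g hg).1, (hS g hg).2.1⟩)] at this
    have hex : ∃ v ∈ X, (S.filter (fun g => p g = v ∨ p' g = v)).card ≤ 2 * D := by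
      by_contra hcon
      push Not at hcon
      have h1 : X.card • (2 * D + 1) ≤ ∑ v ∈ X, (S.filter (fun g => p g = v ∨ p' g = v)).card :=
        Finset.card_nsmul_le_sum X _ _ fun v hv => hcon v hv
      have h2 := sum_deg X S p p'
      rw [smul_eq_mul] at h1
      have h3 : X.card * (2 * D + 1) ≤ 2 * (D * X.card) := h1.trans (h2.trans (by omega))
      have h4 : X.card * (2 * D + 1) = 2 * (D * X.card) + X.card := by ring
      omega
    obtain ⟨v, hvX, hv⟩ := hex
    obtain ⟨x', hx'1, hx'2⟩ := ih (X.erase v) (S.filter (fun g => p g ≠ v ∧ p' g ≠ v))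
      (by rw [Finset.card_erase_of_mem hvX, hX]; rfl)
      (by
        intro g hg
        rw [Finset.mem_filter] at hg
        obtain ⟨hgS, h1, h2⟩ := hg
        exact ⟨Finset.mem_erase.2 ⟨h1, (hS g hgS).1⟩, Finset.mem_erase.2 ⟨h2, (hS g hgS).2.1⟩,
          (hS g hgS).2.2⟩)
      (by
        intro Y hY
        refine le_trans (Finset.card_le_card ?_) (hD Y (hY.trans (Finset.erase_subset v X)))
        intro g hg
        rw [Finset.mem_filter, Finset.mem_filter] at hg
        exact Finset.mem_filter.2 ⟨hg.1.1, hg.2⟩)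
    refine ⟨fun g => if p g = v ∨ p' g = v then v else x' g, ?_, ?_⟩
    · intro g hg
      by_cases hgv : p g = v ∨ p' g = v
      · simp only [if_pos hgv]
        rcases hgv with h | h
        · exact Or.inl h.symm
        · exact Or.inr h.symm
      · simp only [if_neg hgv]
        rw [not_or] at hgv
        exact hx'1 g (Finset.mem_filter.2 ⟨hg, hgv⟩)
    · intro w
      by_cases hwv : w = v
      · subst hwv
        refine le_trans (Finset.card_le_card ?_) hv
        intro g hg
        rw [Finset.mem_filter] at hg ⊢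
        refine ⟨hg.1, ?_⟩
        by_contra hgv
        have h1 : (if p g = w ∨ p' g = w then w else x' g) = w := hg.2
        rw [if_neg hgv] at h1
        rw [not_or] at hgv
        rcases hx'1 g (Finset.mem_filter.2 ⟨hg.1, hgv⟩) with h | h
        · exact hgv.1 (h.symm.trans h1)
        · exact hgv.2 (h.symm.trans h1)
      · refine le_trans (Finset.card_le_card ?_) (hx'2 w)
        intro g hg
        rw [Finset.mem_filter] at hg
        have h1 : (if p g = v ∨ p' g = v then v else x' g) = w := hg.2
        by_cases hgv : p g = v ∨ p' g = v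
        · rw [if_pos hgv] at h1
          exact absurd h1.symm hwv
        · rw [if_neg hgv] at h1
          rw [not_or] at hgv
          exact Finset.mem_filter.2 ⟨Finset.mem_filter.2 ⟨hg.1, hgv⟩, h1⟩

end MDeg

theorem t_Deg : StmtDeg := by
  classical
  intro ι β D X S p p' h1 h2
  obtain ⟨x, hx1, hx2⟩ := MDeg.main D p p' X.card X S rfl h1 (by
    intro Y hY
    have h := h2 Y hY
    convert h)
  refine ⟨x, hx1, fun v => ?_⟩
  have h := hx2 v
  convert h

end KPX
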