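import Pool.Agent.KPX.Stmts

/-!
# A set of at least two maximisers contains two exposed points
-/

set_option autoImplicit false

namespace KPX

open TPH KPH

namespace MExpTwo

/-- A maximiser of a separating functional on a set of maximisers is exposed. -/
theorem exposed {A : Finset E} {u φ : E}
    (hφ : ∀ a ∈ A, ∀ a' ∈ A, ip a φ = ip a' φ → a = a') (hne : (Mx A u).Nonempty) :
    ∃ a ∈ Mx A u, (∃ w, Mx A w = {a}) ∧ ∀ b ∈ Mx A u, ip b φ ≤ ip a φ := by
  classical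
  obtain ⟨a, ha⟩ := Mx_nonempty hne φ
  have haM : a ∈ Mx A u := Mx_subset _ _ ha
  refine ⟨a, haM, ?_, fun b hb => Mx_le ha hb⟩
  obtain ⟨ε₀, h0, h1⟩ := Mx_pert A u φ
  refine ⟨u + (ε₀ / 2) • φ, ?_⟩
  rw [h1 (ε₀ / 2) (by linarith) (by linarith)]
  refine Finset.eq_singleton_iff_unique_mem.mpr ⟨ha, fun b hb => ?_⟩
  exact hφ b (Mx_subset _ _ (Mx_subset _ _ hb)) a (Mx_subset _ _ haM) (Mx_eq hb ha)

end MExpTwo

/-- **StmtExpTwo.** -/
theorem t_ExpTwo (hGeneric : TPH.StmtGeneric) : StmtExpTwo := by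
  classical
  intro A u h2
  obtain ⟨φ, -, hφ⟩ := hGeneric A
  have hne : (Mx A u).Nonempty := Finset.card_pos.1 (by omega)
  obtain ⟨a, ha, hea, hma⟩ := MExpTwo.exposed (u := u) hφ hne
  have hφ' : ∀ x ∈ A, ∀ x' ∈ A, ip x (-φ) = ip x' (-φ) → x = x' := by
    intro x hx x' hx' h
    rw [ip_neg_right, ip_neg_right] at h
    exact hφ x hx x' hx' (neg_injective h)
  obtain ⟨a', ha', hea', hma'⟩ := MExpTwo.exposed (u := u) hφ' hne
  refine ⟨a, ha, a', ha', ?_, hea, hea'⟩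
  intro haa
  obtain ⟨p, hp, p', hp', hpp⟩ := Finset.one_lt_card.1 (by omega : 1 < (Mx A u).card)
  have key : ∀ b ∈ Mx A u, b = a := by
    intro b hb
    have h1 := hma b hb
    have h2 := hma' b hb
    rw [ip_neg_right, ip_neg_right, ← haa] at h2
    exact hφ b (Mx_subset _ _ hb) a (Mx_subset _ _ ha) (le_antisymm h1 (by linarith))
  exact hpp ((key p hp).trans (key p' hp').symm)

end KPX
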