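import Pool.Agent.KPX.Stmts

/-!
# Vertices on `k` parallel hyperplanes: the facets with a single vertex in the middle
-/

set_option autoImplicit false

namespace KPX

open TPH KPH

namespace MMain

open Classical in
/-- A bound for all fibres of a map into `J` bounds the cardinality. -/
theorem card_fib {ι β : Type} (S : Finset ι) (J : Finset β) (f : ι → β) (C : ℝ)
    (hf : ∀ g ∈ S, f g ∈ J)
    (h : ∀ b ∈ J, ∀ F : Finset ι, (∀ g ∈ F, g ∈ S ∧ f g = b) → (F.card : ℝ) ≤ C) :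
    (S.card : ℝ) ≤ (J.card : ℝ) * C := by
  rw [Finset.card_eq_sum_card_fiberwise hf]
  push_cast
  calc (∑ b ∈ J, ((S.filter (fun g => f g = b)).card : ℝ)) ≤ ∑ b ∈ J, C :=
        Finset.sum_le_sum fun b hb => h b hb _ fun g hg => Finset.mem_filter.1 hg
    _ = (J.card : ℝ) * C := by rw [Finset.sum_const, nsmul_eq_mul]

/-- The square root bound for the number of event classes. -/
theorem wd_bound {K W m a b c : ℕ} (ha : a ≤ m) (hb : b ≤ m) (hc : c ≤ m)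
    (h : W ^ 2 ≤ K * (a + b + c) ^ 3) :
    (W : ℝ) ≤ Real.sqrt (27 * K) * (m : ℝ) ^ (3 / 2 : ℝ) := by
  have h1 : W ^ 2 ≤ 27 * K * m ^ 3 := by
    calc W ^ 2 ≤ K * (a + b + c) ^ 3 := h
      _ ≤ K * (3 * m) ^ 3 := Nat.mul_le_mul_left _ (Nat.pow_le_pow_left (by omega) 3)
      _ = 27 * K * m ^ 3 := by ring
  have h2 : (W : ℝ) ^ 2 ≤ 27 * K * (m : ℝ) ^ 3 := by exact_mod_cast h1
  have hm : (0 : ℝ) ≤ (m : ℝ) := Nat.cast_nonneg m
  have h3 : ((m : ℝ) ^ (3 / 2 : ℝ)) ^ 2 = (m : ℝ) ^ 3 := by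
    rw [← Real.rpow_natCast, ← Real.rpow_mul hm, ← Real.rpow_natCast]
    norm_num
  have h4 : (Real.sqrt (27 * K) * (m : ℝ) ^ (3 / 2 : ℝ)) ^ 2 = 27 * K * (m : ℝ) ^ 3 := by
    rw [mul_pow, h3, Real.sq_sqrt (by positivity)]
  refine le_of_sq_le_sq ?_ (by positivity)
  rw [h4]
  exact h2

/-- `m ≤ m ^ (3/2)`. -/
theorem le_rpow {m : ℕ} (hm : 0 < m) : (m : ℝ) ≤ (m : ℝ) ^ (3 / 2 : ℝ) := by
  have h1 : (1 : ℝ) ≤ (m : ℝ) := by exact_mod_cast hm
  calc (m : ℝ) = (m : ℝ) ^ (1 : ℝ) := (Real.rpow_one _).symm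
    _ ≤ (m : ℝ) ^ (3 / 2 : ℝ) := Real.rpow_le_rpow_of_exponent_le h1 (by norm_num)

open Classical in
/-- The facets given to three classes. -/
theorem cell (hPair : StmtPair) {ι : Type} {V : Finset (E × ℝ)} {G : Finset ι} {u : ι → E}
    {s q : ι → ℝ} (D : Tr.Data V G u s q) {S : Finset ι} (hS : S ⊆ G) (cF : ι → E × ℝ)
    (x y : E × ℝ → ι → E × ℝ)
    (hcV : ∀ g ∈ S, cF g ∈ V)
    (hcZ : ∀ g ∈ S, Zr V (u g) (s g) (q g) (cF g).2 = {cF g})
    (hx : ∀ g ∈ S, x (cF g) g ∈ sd V (-1) (cF g) ∧ Tr.val (u g) (s g) (x (cF g) g) = q g)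
    (hy : ∀ g ∈ S, y (cF g) g ∈ sd V 1 (cF g) ∧ Tr.val (u g) (s g) (y (cF g) g) = q g)
    (hxm : ∀ c ∈ V, ∀ v, ((S.filter (fun g => cF g = c)).filter (fun g => x c g = v)).card ≤ 56)
    (hym : ∀ c ∈ V, ∀ v, ((S.filter (fun g => cF g = c)).filter (fun g => y c g = v)).card ≤ 56)
    {m : ℕ} {cl : E × ℝ → ℝ × ℕ} (hcl : ∀ v ∈ V, (cl v).1 = v.2)
    (hm : ∀ j : ℝ × ℕ, (V.filter (fun v => cl v = j)).card ≤ m)
    (j₁ j₂ j₃ : ℝ × ℕ) (K : ℕ)
    (hK : ∀ (V : Finset (E × ℝ)) (t₁ t₂ t₃ : ℝ), Btw t₁ t₂ t₃ →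
      (∀ v ∈ V, ∃ (u : E) (s : ℝ), ∀ v' ∈ V, v' ≠ v → Tr.val u s v' < Tr.val u s v) →
      (Wd V t₁ t₂ t₃) ^ 2 ≤ K * ((Tr.lay V t₁).card + (Tr.lay V t₂).card + (Tr.lay V t₃).card) ^ 3) :
    ((S.filter (fun g => cl (x (cF g) g) = j₁ ∧ cl (cF g) = j₂ ∧ cl (y (cF g) g) = j₃)).card : ℝ) ≤
      1344 * (Real.sqrt (27 * K) * (m : ℝ) ^ (3 / 2 : ℝ)) + 672 * m := by
  set F : Finset ι :=
    S.filter (fun g => cl (x (cF g) g) = j₁ ∧ cl (cF g) = j₂ ∧ cl (y (cF g) g) = j₃) with hF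
  rcases F.eq_empty_or_nonempty with h0 | ⟨g₀, hg₀⟩
  · rw [h0]
    simp only [Finset.card_empty, Nat.cast_zero]
    positivity
  have hsd : ∀ (σ : ℝ) (c v : E × ℝ), v ∈ sd V σ c → v ∈ V ∧ 0 < σ * (v.2 - c.2) := by
    intro σ c v hv
    exact Finset.mem_filter.1 hv
  have hFS : ∀ g ∈ F, g ∈ S ∧ cl (x (cF g) g) = j₁ ∧ cl (cF g) = j₂ ∧ cl (y (cF g) g) = j₃ :=
    fun g hg => Finset.mem_filter.1 hg
  -- heights
  obtain ⟨a0, a1, a2, a3⟩ := hFS g₀ hg₀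
  have b1 := hsd _ _ _ (hx g₀ a0).1
  have b3 := hsd _ _ _ (hy g₀ a0).1
  have b2 := hcV g₀ a0
  have e1 : j₁.1 = (x (cF g₀) g₀).2 := by rw [← a1]; exact hcl _ b1.1
  have e2 : j₂.1 = (cF g₀).2 := by rw [← a2]; exact hcl _ b2
  have e3 : j₃.1 = (y (cF g₀) g₀).2 := by rw [← a3]; exact hcl _ b3.1
  have l12 : j₁.1 < j₂.1 := by
    rw [e1, e2]
    have := b1.2
    linarith
  have l23 : j₂.1 < j₃.1 := by
    rw [e2, e3]
    have := b3.2
    linarith
  have hB : Btw j₁.1 j₂.1 j₃.1 := Or.inl ⟨l12, l23⟩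
  -- the union of the three classes
  set V' : Finset (E × ℝ) := V.filter (fun v => cl v = j₁ ∨ cl v = j₂ ∨ cl v = j₃) with hV'
  have hV'V : V' ⊆ V := Finset.filter_subset _ _
  have lay1 : Tr.lay V' j₁.1 ⊆ V.filter (fun v => cl v = j₁) := by
    intro v hv
    obtain ⟨h1, h2⟩ := Tr.mem_lay.1 hv
    obtain ⟨h3, h4⟩ := Finset.mem_filter.1 h1
    have h5 := hcl v h3
    refine Finset.mem_filter.2 ⟨h3, ?_⟩
    rcases h4 with h | h | h
    · exact h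
    · rw [h] at h5
      exfalso
      rw [← h2] at l12
      linarith
    · rw [h] at h5
      exfalso
      rw [← h2] at l12
      linarith
  have lay2 : Tr.lay V' j₂.1 ⊆ V.filter (fun v => cl v = j₂) := by
    intro v hv
    obtain ⟨h1, h2⟩ := Tr.mem_lay.1 hv
    obtain ⟨h3, h4⟩ := Finset.mem_filter.1 h1
    have h5 := hcl v h3
    refine Finset.mem_filter.2 ⟨h3, ?_⟩
    rcases h4 with h | h | h
    · rw [h] at h5
      exfalso
      rw [← h2] at l12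
      linarith
    · exact h
    · rw [h] at h5
      exfalso
      rw [← h2] at l23
      linarith
  have lay3 : Tr.lay V' j₃.1 ⊆ V.filter (fun v => cl v = j₃) := by
    intro v hv
    obtain ⟨h1, h2⟩ := Tr.mem_lay.1 hv
    obtain ⟨h3, h4⟩ := Finset.mem_filter.1 h1
    have h5 := hcl v h3
    refine Finset.mem_filter.2 ⟨h3, ?_⟩
    rcases h4 with h | h | h
    · rw [h] at h5
      exfalso
      rw [← h2] at l23
      linarith
    · rw [h] at h5
      exfalso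
      rw [← h2] at l23
      linarith
    · exact h
  have c1 : (Tr.lay V' j₁.1).card ≤ m := (Finset.card_le_card lay1).trans (hm _)
  have c2 : (Tr.lay V' j₂.1).card ≤ m := (Finset.card_le_card lay2).trans (hm _)
  have c3 : (Tr.lay V' j₃.1).card ≤ m := (Finset.card_le_card lay3).trans (hm _)
  have hexp : ∀ v ∈ V', ∃ (u : E) (s : ℝ), ∀ v' ∈ V', v' ≠ v → Tr.val u s v' < Tr.val u s v := by
    intro v hv
    obtain ⟨r, s₀, h⟩ := D.exp v (hV'V hv)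
    exact ⟨r, s₀, fun v' hv' hne => h v' (hV'V hv') hne⟩
  have hW := wd_bound c1 c2 c3 (hK V' j₁.1 j₂.1 j₃.1 hB hexp)
  -- the sum over the middle vertex
  have hmap : ∀ g ∈ F, cF g ∈ Tr.lay V' j₂.1 := by
    intro g hg
    obtain ⟨d0, -, d2, -⟩ := hFS g hg
    refine Tr.mem_lay.2 ⟨Finset.mem_filter.2 ⟨hcV g d0, Or.inr (Or.inl d2)⟩, ?_⟩
    rw [← hcl _ (hcV g d0), d2]
  have hfib : ∀ c ∈ Tr.lay V' j₂.1,
      (F.filter (fun g => cF g = c)).card ≤ 2 * 56 * (12 * evd V' j₁.1 j₂.1 j₃.1 c + 6) := by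
    intro c hc
    have hcV' : c ∈ V := hV'V (Tr.mem_lay.1 hc).1
    have hsub : F.filter (fun g => cF g = c) ⊆ S.filter (fun g => cF g = c) := by
      intro g hg
      obtain ⟨h1, h2⟩ := Finset.mem_filter.1 hg
      exact Finset.mem_filter.2 ⟨(hFS g h1).1, h2⟩
    refine hPair ι V G u s q D V' j₁.1 j₂.1 j₃.1 c (F.filter (fun g => cF g = c)) (x c) (y c) 56
      hV'V hB hc (fun g hg => hS (hFS g (Finset.mem_filter.1 hg).1).1) ?_ ?_ ?_
    · intro g hg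
      obtain ⟨hgF, hgc⟩ := Finset.mem_filter.1 hg
      obtain ⟨d0, d1, d2, d3⟩ := hFS g hgF
      have x1 := hx g d0
      have y1 := hy g d0
      have z1 := hcZ g d0
      have hj2 : j₂.1 = (cF g).2 := by rw [← d2]; exact hcl _ (hcV g d0)
      rw [← hj2] at z1
      rw [hgc] at x1 y1 z1 d1 d3
      have x2 := hsd _ _ _ x1.1
      have y2 := hsd _ _ _ y1.1
      refine ⟨Tr.mem_lay.2 ⟨Finset.mem_filter.2 ⟨x2.1, Or.inl d1⟩, ?_⟩, x1.2,
        Tr.mem_lay.2 ⟨Finset.mem_filter.2 ⟨y2.1, Or.inr (Or.inr d3)⟩, ?_⟩, y1.2, z1⟩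
      · rw [← hcl _ x2.1, d1]
      · rw [← hcl _ y2.1, d3]
    · intro v
      have h5 : ((F.filter (fun g => cF g = c)).filter (fun g => x c g = v)).card ≤ 56 :=
        le_trans (Finset.card_le_card (fun g hg => Finset.mem_filter.2
          ⟨hsub (Finset.mem_filter.1 hg).1, (Finset.mem_filter.1 hg).2⟩)) (hxm c hcV' v)
      convert h5
    · intro v
      have h5 : ((F.filter (fun g => cF g = c)).filter (fun g => y c g = v)).card ≤ 56 :=
        le_trans (Finset.card_le_card (fun g hg => Finset.mem_filter.2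
          ⟨hsub (Finset.mem_filter.1 hg).1, (Finset.mem_filter.1 hg).2⟩)) (hym c hcV' v)
      convert h5
  have hsum : F.card ≤ 1344 * Wd V' j₁.1 j₂.1 j₃.1 + 672 * m := by
    calc F.card = ∑ c ∈ Tr.lay V' j₂.1, (F.filter (fun g => cF g = c)).card :=
          Finset.card_eq_sum_card_fiberwise hmap
      _ ≤ ∑ c ∈ Tr.lay V' j₂.1, 2 * 56 * (12 * evd V' j₁.1 j₂.1 j₃.1 c + 6) :=
          Finset.sum_le_sum hfib
      _ = 1344 * Wd V' j₁.1 j₂.1 j₃.1 + 672 * (Tr.lay V' j₂.1).card := by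
          rw [← Finset.mul_sum, Finset.sum_add_distrib, ← Finset.mul_sum, Finset.sum_const,
            smul_eq_mul, Wd]
          ring
      _ ≤ 1344 * Wd V' j₁.1 j₂.1 j₃.1 + 672 * m := by
          have := Nat.mul_le_mul_left 672 c2
          omega
  have hsum' : (F.card : ℝ) ≤ 1344 * (Wd V' j₁.1 j₂.1 j₃.1 : ℝ) + 672 * m := by exact_mod_cast hsum
  linarith

end MMain

open MMain in
open Classical in
theorem t_Main (hWd : KPH.StmtWd) (hAssign : StmtAssign) (hPair : StmtPair) : StmtMain := by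
  obtain ⟨K, hK⟩ := hWd
  refine ⟨1344 * Real.sqrt (27 * K) + 672, by positivity, ?_⟩
  intro ι V G u s q D S hS hSc m J cl hm0 hcl hm
  -- the middle vertex
  have hex : ∀ g, ∃ c : E × ℝ, g ∈ S → c ∈ V ∧ Zr V (u g) (s g) (q g) c.2 = {c} ∧
      ∀ σ : ℝ, σ = 1 ∨ σ = -1 → ∃ z ∈ sd V σ c, ∃ z' ∈ sd V σ c, z ≠ z' ∧
        Tr.val (u g) (s g) z = q g ∧ Tr.val (u g) (s g) z' = q g := by
    intro g
    by_cases hg : g ∈ S
    · obtain ⟨c, hc, h⟩ := (hSc g hg).2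
      exact ⟨c, fun _ => ⟨hc, h⟩⟩
    · exact ⟨0, fun h => absurd h hg⟩
  choose cF hcF using hex
  have hval : ∀ g ∈ S, Tr.val (u g) (s g) (cF g) = q g := by
    intro g hg
    have h := (hcF g hg).2.1
    have h1 : cF g ∈ Zr V (u g) (s g) (q g) (cF g).2 := by
      rw [h]
      exact Finset.mem_singleton_self _
    exact (Tr.mem_zer.1 h1).2.2
  -- the lower and the upper vertex
  have hA : ∀ σ : ℝ, σ = 1 ∨ σ = -1 → ∀ c : E × ℝ, ∃ x : ι → E × ℝ, c ∈ V →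
      (∀ g ∈ S.filter (fun g => cF g = c), x g ∈ sd V σ c ∧ Tr.val (u g) (s g) (x g) = q g) ∧
      ∀ v, ((S.filter (fun g => cF g = c)).filter (fun g => x g = v)).card ≤ 56 := by
    intro σ hσ c
    by_cases hc : c ∈ V
    · have hσ2 : σ * σ = 1 := by rcases hσ with h | h <;> rw [h] <;> norm_num
      obtain ⟨x, h1, h2⟩ := hAssign ι V G u s q D c σ hc hσ2 (S.filter (fun g => cF g = c))
        (fun g hg => hS (Finset.mem_filter.1 hg).1) (by
          intro g hg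
          obtain ⟨hg1, hg2⟩ := Finset.mem_filter.1 hg
          have h3 := hval g hg1
          have h4 := (hcF g hg1).2.2 σ hσ
          rw [hg2] at h3 h4
          exact ⟨(hSc g hg1).1, h3, h4⟩)
      refine ⟨x, fun _ => ⟨h1, fun v => ?_⟩⟩
      convert h2 v
    · exact ⟨fun _ => 0, fun h => absurd h hc⟩
  choose x hx using hA (-1) (Or.inr rfl)
  choose y hy using hA 1 (Or.inl rfl)
  have hxg : ∀ g ∈ S, x (cF g) g ∈ sd V (-1) (cF g) ∧ Tr.val (u g) (s g) (x (cF g) g) = q g :=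
    fun g hg => (hx (cF g) (hcF g hg).1).1 g (Finset.mem_filter.2 ⟨hg, rfl⟩)
  have hyg : ∀ g ∈ S, y (cF g) g ∈ sd V 1 (cF g) ∧ Tr.val (u g) (s g) (y (cF g) g) = q g :=
    fun g hg => (hy (cF g) (hcF g hg).1).1 g (Finset.mem_filter.2 ⟨hg, rfl⟩)
  have hm' : ∀ j : ℝ × ℕ, (V.filter (fun v => cl v = j)).card ≤ m := by
    intro j
    convert hm j
  have hsd : ∀ (σ : ℝ) (c v : E × ℝ), v ∈ sd V σ c → v ∈ V := by
    intro σ c v hv
    exact (Finset.mem_filter.1 hv).1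
  -- the sum over the classes
  have hsum := card_fib S (J ×ˢ (J ×ˢ J))
    (fun g => (cl (x (cF g) g), cl (cF g), cl (y (cF g) g)))
    (1344 * (Real.sqrt (27 * K) * (m : ℝ) ^ (3 / 2 : ℝ)) + 672 * m)
    (by
      intro g hg
      have h1 := (hcl _ (hsd _ _ _ (hxg g hg).1)).1
      have h2 := (hcl _ (hcF g hg).1).1
      have h3 := (hcl _ (hsd _ _ _ (hyg g hg).1)).1
      exact Finset.mem_product.2 ⟨h1, Finset.mem_product.2 ⟨h2, h3⟩⟩)
    (by
      rintro ⟨j₁, j₂, j₃⟩ - F hF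
      have h := cell hPair D hS cF x y (fun g hg => (hcF g hg).1) (fun g hg => (hcF g hg).2.1)
        hxg hyg (fun c hc v => (hx c hc).2 v) (fun c hc v => (hy c hc).2 v)
        (fun v hv => (hcl v hv).2) hm' j₁ j₂ j₃ K hK
      refine le_trans (Nat.cast_le.2 (Finset.card_le_card fun g hg => ?_)) h
      obtain ⟨h1, h2⟩ := hF g hg
      have h3 := congrArg Prod.fst h2
      have h4 := congrArg (fun z => z.2.1) h2
      have h5 := congrArg (fun z => z.2.2) h2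
      exact Finset.mem_filter.2 ⟨h1, h3, h4, h5⟩)
  rw [Finset.card_product, Finset.card_product] at hsum
  push_cast at hsum
  have hmr := le_rpow hm0
  have hJ : (0 : ℝ) ≤ (J.card : ℝ) := Nat.cast_nonneg _
  calc (S.card : ℝ) ≤ (J.card : ℝ) * ((J.card : ℝ) * (J.card : ℝ)) *
        (1344 * (Real.sqrt (27 * K) * (m : ℝ) ^ (3 / 2 : ℝ)) + 672 * m) := hsum
    _ ≤ (J.card : ℝ) * ((J.card : ℝ) * (J.card : ℝ)) *
        (1344 * (Real.sqrt (27 * K) * (m : ℝ) ^ (3 / 2 : ℝ)) + 672 * (m : ℝ) ^ (3 / 2 : ℝ)) := by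
        refine mul_le_mul_of_nonneg_left ?_ (by positivity)
        linarith
    _ = (1344 * Real.sqrt (27 * K) + 672) * (J.card : ℝ) ^ 3 * (m : ℝ) ^ (3 / 2 : ℝ) := by ring

end KPX
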