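import Pool.Agent.KPX.Stmts

/-!
# Greedy matching
-/

set_option autoImplicit false

namespace KPX

open TPH KPH

open Classical in
/-- **StmtMatch.** Greedy matching. -/
theorem t_Match : StmtMatch := by
  intro ι β M S x y hx hy
  set P : Finset ι → Prop := fun W => (∀ g ∈ W, ∀ g' ∈ W, x g = x g' → g = g') ∧
    (∀ g ∈ W, ∀ g' ∈ W, y g = y g' → g = g') with hP
  obtain ⟨W, hW, hmax⟩ := Finset.exists_max_image (S.powerset.filter P) Finset.card
    ⟨∅, by simp [hP]⟩
  rw [Finset.mem_filter, Finset.mem_powerset] at hW
  obtain ⟨hWS, hWx, hWy⟩ := hW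
  refine ⟨W, hWS, hWx, hWy, ?_⟩
  have hcov : ∀ g ∈ S, ∃ w ∈ W, x g = x w ∨ y g = y w := by
    intro g hg
    by_contra hcon
    push Not at hcon
    have hgW : g ∉ W := fun h => (hcon g h).1 rfl
    have hmem : insert g W ∈ S.powerset.filter P := by
      rw [Finset.mem_filter, Finset.mem_powerset]
      refine ⟨Finset.insert_subset hg hWS, ?_, ?_⟩
      · intro a ha b hb hab
        rw [Finset.mem_insert] at ha hb
        rcases ha with rfl | ha <;> rcases hb with rfl | hb
        · rfl
        · exact absurd hab (hcon b hb).1
        · exact absurd hab.symm (hcon a ha).1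
        · exact hWx a ha b hb hab
      · intro a ha b hb hab
        rw [Finset.mem_insert] at ha hb
        rcases ha with rfl | ha <;> rcases hb with rfl | hb
        · rfl
        · exact absurd hab (hcon b hb).2
        · exact absurd hab.symm (hcon a ha).2
        · exact hWy a ha b hb hab
    have := hmax _ hmem
    rw [Finset.card_insert_of_notMem hgW] at this
    omega
  have hsub : S ⊆ W.biUnion (fun w => S.filter (fun g => x g = x w) ∪
      S.filter (fun g => y g = y w)) := by
    intro g hg
    obtain ⟨w, hw, h⟩ := hcov g hg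
    rw [Finset.mem_biUnion]
    refine ⟨w, hw, ?_⟩
    rw [Finset.mem_union, Finset.mem_filter, Finset.mem_filter]
    rcases h with h | h
    · exact Or.inl ⟨hg, h⟩
    · exact Or.inr ⟨hg, h⟩
  have h1 : S.card ≤ ∑ w ∈ W, 2 * M := by
    refine (Finset.card_le_card hsub).trans (Finset.card_biUnion_le.trans ?_)
    refine Finset.sum_le_sum fun w _ => ?_
    refine (Finset.card_union_le _ _).trans ?_
    have h2 : (S.filter (fun g => x g = x w)).card ≤ M := by
      have := hx (x w)
      convert this using 2
    have h3 : (S.filter (fun g => y g = y w)).card ≤ M := by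
      have := hy (y w)
      convert this using 2
    omega
  rw [Finset.sum_const, smul_eq_mul] at h1
  rw [mul_comm (2 * M)]
  exact h1

end KPX
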