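import Pool.Agent.KPX.Stmts

/-!
# Vertices on `k` parallel hyperplanes: the third lowest vertex of a facet
-/

set_option autoImplicit false

namespace KPX

open TPH KPH

namespace MMedian

/-- Two different points of the set give two points on the side `σ` of `c`. -/
theorem pick {V W : Finset (E × ℝ)} {u : E} {s q σ : ℝ} {c : E × ℝ}
    (hW : ∀ v ∈ W, v ∈ V ∧ Tr.val u s v = q ∧ 0 < σ * (v.2 - c.2)) (h2 : 2 ≤ W.card) :
    ∃ z ∈ sd V σ c, ∃ z' ∈ sd V σ c, z ≠ z' ∧ Tr.val u s z = q ∧ Tr.val u s z' = q := by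
  classical
  obtain ⟨a, ha, b, hb, hab⟩ := Finset.one_lt_card.1 (show 1 < W.card by omega)
  obtain ⟨ha1, ha2, ha3⟩ := hW a ha
  obtain ⟨hb1, hb2, hb3⟩ := hW b hb
  refine ⟨a, ?_, b, ?_, hab, ha2, hb2⟩
  · simp only [sd, Finset.mem_filter]
    exact ⟨ha1, ha3⟩
  · simp only [sd, Finset.mem_filter]
    exact ⟨hb1, hb3⟩

end MMedian

theorem t_Median : StmtMedian := by
  intro ι V G u s q hD T hT g hg
  classical
  obtain ⟨Z, hZ5, hZ⟩ := hD.five g hg
  obtain ⟨W, hWdef⟩ : ∃ W : Finset (E × ℝ),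
      W = V.filter (fun v => Tr.val (u g) (s g) v = q g) := ⟨_, rfl⟩
  have hW : ∀ v, v ∈ W ↔ v ∈ V ∧ Tr.val (u g) (s g) v = q g := by
    intro v
    rw [hWdef, Finset.mem_filter]
  have hW5 : 5 ≤ W.card := hZ5.trans (Finset.card_le_card (fun v hv => (hW v).2 (hZ v hv)))
  obtain ⟨Q, hQdef⟩ : ∃ Q : Finset (E × ℝ),
      Q = W.filter (fun c => 3 ≤ (W.filter (fun v => v.2 ≤ c.2)).card) := ⟨_, rfl⟩
  have hQ : ∀ c, c ∈ Q ↔ c ∈ W ∧ 3 ≤ (W.filter (fun v => v.2 ≤ c.2)).card := by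
    intro c
    rw [hQdef, Finset.mem_filter]
  have hWne : W.Nonempty := Finset.card_pos.1 (by omega)
  have hQne : Q.Nonempty := by
    obtain ⟨m, hm, hmax⟩ := W.exists_max_image (fun v => v.2) hWne
    refine ⟨m, (hQ m).2 ⟨hm, ?_⟩⟩
    rw [Finset.filter_true_of_mem (fun v hv => hmax v hv)]
    omega
  obtain ⟨c, hcQ, hcmin⟩ := Q.exists_min_image (fun v => v.2) hQne
  obtain ⟨hcW, hc3⟩ := (hQ c).1 hcQ
  obtain ⟨hcV, hcq⟩ := (hW c).1 hcW
  obtain ⟨B, hB⟩ : ∃ B : Finset (E × ℝ), B = W.filter (fun v => v.2 < c.2) := ⟨_, rfl⟩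
  obtain ⟨A, hA⟩ : ∃ A : Finset (E × ℝ), A = W.filter (fun v => c.2 < v.2) := ⟨_, rfl⟩
  have hBm : ∀ v, v ∈ B ↔ v ∈ W ∧ v.2 < c.2 := by
    intro v
    rw [hB, Finset.mem_filter]
  have hAm : ∀ v, v ∈ A ↔ v ∈ W ∧ c.2 < v.2 := by
    intro v
    rw [hA, Finset.mem_filter]
  have hL : Zr V (u g) (s g) (q g) c.2 = W.filter (fun v => v.2 = c.2) := by
    ext v
    rw [Tr.mem_zer, Finset.mem_filter, hW]
    tauto
  have hB2 : B.card ≤ 2 := by
    by_contra hcon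
    have h3 : 3 ≤ B.card := by omega
    obtain ⟨b, hb, hbmax⟩ := B.exists_max_image (fun v => v.2) (Finset.card_pos.1 (by omega))
    have hb' := (hBm b).1 hb
    have hbQ : b ∈ Q := by
      refine (hQ b).2 ⟨hb'.1, h3.trans (Finset.card_le_card ?_)⟩
      intro v hv
      exact Finset.mem_filter.2 ⟨((hBm v).1 hv).1, hbmax v hv⟩
    have := hcmin b hbQ
    linarith [hb'.2]
  have hle : (W.filter (fun v => v.2 ≤ c.2)).card =
      B.card + (Zr V (u g) (s g) (q g) c.2).card := by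
    rw [hL, hB, ← Finset.card_union_of_disjoint]
    · congr 1
      ext v
      simp only [Finset.mem_union, Finset.mem_filter]
      constructor
      · rintro ⟨h1, h2⟩
        rcases lt_or_eq_of_le h2 with h | h
        · exact Or.inl ⟨h1, h⟩
        · exact Or.inr ⟨h1, h⟩
      · rintro (⟨h1, h2⟩ | ⟨h1, h2⟩)
        · exact ⟨h1, h2.le⟩
        · exact ⟨h1, h2.le⟩
    · rw [Finset.disjoint_left]
      intro v h1 h2
      have h1' := (Finset.mem_filter.1 h1).2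
      have h2' := (Finset.mem_filter.1 h2).2
      linarith
  have htot : W.card = (W.filter (fun v => v.2 ≤ c.2)).card + A.card := by
    rw [hA, ← Finset.card_union_of_disjoint]
    · congr 1
      ext v
      simp only [Finset.mem_union, Finset.mem_filter]
      constructor
      · intro h1
        rcases le_or_gt v.2 c.2 with h | h
        · exact Or.inl ⟨h1, h⟩
        · exact Or.inr ⟨h1, h⟩
      · rintro (⟨h1, _⟩ | ⟨h1, _⟩) <;> exact h1
    · rw [Finset.disjoint_left]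
      intro v h1 h2
      have h1' := (Finset.mem_filter.1 h1).2
      have h2' := (Finset.mem_filter.1 h2).2
      linarith
  by_cases h3 : 3 ≤ (Zr V (u g) (s g) (q g) c.2).card
  · exact Or.inl ⟨c.2, hT c hcV, h3⟩
  refine Or.inr ?_
  by_cases h2 : (Zr V (u g) (s g) (q g) c.2).card = 2
  · refine Or.inl ?_
    obtain ⟨b, hb⟩ : B.Nonempty := Finset.card_pos.1 (by omega)
    obtain ⟨a, ha⟩ : A.Nonempty := Finset.card_pos.1 (by omega)
    obtain ⟨hbW, hbc⟩ := (hBm b).1 hb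
    obtain ⟨haW, hac⟩ := (hAm a).1 ha
    obtain ⟨hbV, hbq⟩ := (hW b).1 hbW
    obtain ⟨haV, haq⟩ := (hW a).1 haW
    exact ⟨b.2, hT b hbV, c.2, hT c hcV, a.2, hT a haV, Or.inl ⟨hbc, hac⟩, h2,
      ⟨b, Tr.mem_zer.2 ⟨hbV, rfl, hbq⟩⟩, ⟨a, Tr.mem_zer.2 ⟨haV, rfl, haq⟩⟩⟩
  refine Or.inr ⟨c, hcV, ?_, ?_⟩
  · have h1 : (Zr V (u g) (s g) (q g) c.2).card = 1 := by omega
    obtain ⟨a, ha⟩ := Finset.card_eq_one.1 h1
    have hc : c ∈ Zr V (u g) (s g) (q g) c.2 := Tr.mem_zer.2 ⟨hcV, rfl, hcq⟩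
    rw [ha, Finset.mem_singleton] at hc
    rw [ha, ← hc]
  · rintro σ (rfl | rfl)
    · refine MMedian.pick (W := A) (fun v hv => ?_) (by omega)
      obtain ⟨h1, h4⟩ := (hAm v).1 hv
      obtain ⟨h5, h6⟩ := (hW v).1 h1
      exact ⟨h5, h6, by linarith⟩
    · refine MMedian.pick (W := B) (fun v hv => ?_) (by omega)
      obtain ⟨h1, h4⟩ := (hBm v).1 hv
      obtain ⟨h5, h6⟩ := (hW v).1 h1
      exact ⟨h5, h6, by linarith⟩

end KPX
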