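import Pool.Agent.KPX.Stmts

/-!
# Facets given to a pair of classes
-/

set_option autoImplicit false

namespace KPX

open TPH KPH

namespace MPair

/-- Three different facets do not have three different common vertices. -/
theorem no_three {ι : Type} {V : Finset (E × ℝ)} {G : Finset ι} {u : ι → E} {s q : ι → ℝ}
    (D : Tr.Data V G u s q) {g₁ g₂ g₃ : ι} (h1 : g₁ ∈ G) (h2 : g₂ ∈ G) (h3 : g₃ ∈ G)
    (n12 : g₁ ≠ g₂) (n13 : g₁ ≠ g₃) (n23 : g₂ ≠ g₃) {x y z : E × ℝ} (hx : x ∈ V) (hy : y ∈ V)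
    (hz : z ∈ V) (hxy : x ≠ y) (hxz : x ≠ z) (hyz : y ≠ z)
    (x1 : Tr.val (u g₁) (s g₁) x = q g₁) (x2 : Tr.val (u g₂) (s g₂) x = q g₂)
    (x3 : Tr.val (u g₃) (s g₃) x = q g₃)
    (y1 : Tr.val (u g₁) (s g₁) y = q g₁) (y2 : Tr.val (u g₂) (s g₂) y = q g₂)
    (y3 : Tr.val (u g₃) (s g₃) y = q g₃)
    (z1 : Tr.val (u g₁) (s g₁) z = q g₁) (z2 : Tr.val (u g₂) (s g₂) z = q g₂)
    (z3 : Tr.val (u g₃) (s g₃) z = q g₃) : False := by
  classical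
  have hsub : ({g₁, g₂, g₃} : Finset ι) ⊆ G := by
    intro g hg
    rw [Finset.mem_insert, Finset.mem_insert, Finset.mem_singleton] at hg
    rcases hg with rfl | rfl | rfl
    · exact h1
    · exact h2
    · exact h3
  have hc := D.two x hx y hy z hz hxy hxz hyz {g₁, g₂, g₃} hsub (by
    intro g hg
    rw [Finset.mem_insert, Finset.mem_insert, Finset.mem_singleton] at hg
    rcases hg with rfl | rfl | rfl
    · exact ⟨x1, y1, z1⟩
    · exact ⟨x2, y2, z2⟩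
    · exact ⟨x3, y3, z3⟩)
  rw [Finset.card_eq_three.2 ⟨g₁, g₂, g₃, n12, n13, n23, rfl⟩] at hc
  omega

/-- A functional which attains its maximal value on three layers gives a tie. -/
theorem tie {V : Finset (E × ℝ)} {u : E} {s q t₁ t₂ t₃ : ℝ} {v : E × ℝ} (hB : Btw t₁ t₂ t₃)
    (hnn : ∀ v ∈ V, Tr.val u s v ≤ q) (hnz : u = 0 → s ≠ 0) (hv : v ∈ Tr.zer V t₂ u s q)
    (h1 : (Tr.zer V t₁ u s q).Nonempty) (h3 : (Tr.zer V t₃ u s q).Nonempty) :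
    u ≠ 0 ∧ Tie (AA V t₁ t₂ t₃) (BB V t₁ t₂ t₃) v.1 u ∧
      (Tr.zer V t₂ u s q = {v} → Mx (CC V t₂) u = {v.1}) := by
  classical
  have hα := hB.wt_pos
  have hβ := hB.symm.wt_pos
  have hab := hB.wt_add
  have ht := hB.wt_eq
  have kα : 0 < 2 * wt t₁ t₂ t₃ := by linarith
  have kβ : 0 < 2 * wt t₃ t₂ t₁ := by linarith
  have hv' := Tr.mem_zer.1 hv
  have hvv : ip v.1 u = q - s * t₂ := by
    have h := hv'.2.2
    rw [Tr.val, hv'.2.1] at h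
    linarith
  have nA : (Mx (AA V t₁ t₂ t₃) u).Nonempty := by
    rw [← Finset.card_pos, AA, Tr.card_Mx kα hnn h1]
    exact Finset.card_pos.2 h1
  have nB : (Mx (BB V t₁ t₂ t₃) u).Nonempty := by
    rw [← Finset.card_pos, BB, Tr.card_Mx kβ hnn h3]
    exact Finset.card_pos.2 h3
  obtain ⟨a, ha⟩ := nA
  obtain ⟨b, hb⟩ := nB
  have ea := Tr.ip_of_mem kα hnn h1 ha
  have eb := Tr.ip_of_mem kβ hnn h3 hb
  have heq : ip a u + ip b u = 2 * ip v.1 u := by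
    rw [ea, eb, hvv]
    have h : wt t₃ t₂ t₁ = 1 - wt t₁ t₂ t₃ := by linarith
    have h2 : t₂ = wt t₁ t₂ t₃ * t₁ + (1 - wt t₁ t₂ t₃) * t₃ := by rw [← h]; exact ht.symm
    rw [h]
    have h4 : s * t₂ = s * (wt t₁ t₂ t₃ * t₁ + (1 - wt t₁ t₂ t₃) * t₃) := by rw [← h2]
    linear_combination 2 * h4
  refine ⟨?_, ⟨inRc_of_mem ha hb heq.le, fun h => ?_⟩, ?_⟩
  · intro h0
    obtain ⟨x, hx⟩ := h1
    have hx' := Tr.mem_zer.1 hx
    have e1 := hx'.2.2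
    have e2 := hv'.2.2
    rw [Tr.val, h0, ip_zero_right, hx'.2.1] at e1
    rw [Tr.val, h0, ip_zero_right, hv'.2.1] at e2
    have h : s * (t₁ - t₂) = 0 := by linarith
    rcases mul_eq_zero.1 h with h | h
    · exact hnz h0 h
    · exact hB.ne.1 (sub_eq_zero.1 h)
  · have h' := h a (Mx_subset _ _ ha) b (Mx_subset _ _ hb)
    linarith
  · intro hz
    rw [CC, Tr.Mx_img one_pos hnn ⟨v, hv⟩, hz, Finset.image_singleton, one_smul]

/-- The sets of maximisers are large or different. -/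
theorem triple {V' : Finset (E × ℝ)} {t k : ℝ} (hk : 0 < k) {u₁ u₂ : E} {s₁ s₂ q₁ q₂ : ℝ}
    {x₁ x₂ : E × ℝ} (hn1 : ∀ v ∈ V', Tr.val u₁ s₁ v ≤ q₁) (hn2 : ∀ v ∈ V', Tr.val u₂ s₂ v ≤ q₂)
    (h1 : x₁ ∈ Tr.zer V' t u₁ s₁ q₁) (h2 : x₂ ∈ Tr.zer V' t u₂ s₂ q₂) (hne : x₁ ≠ x₂) :
    2 ≤ (Mx (Tr.img V' t k) u₁).card ∨ Mx (Tr.img V' t k) u₁ ≠ Mx (Tr.img V' t k) u₂ := by
  by_contra hcon
  push Not at hcon
  obtain ⟨hc, he⟩ := hcon
  have h1' := Tr.mem_zer.1 h1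
  have h2' := Tr.mem_zer.1 h2
  have l1 : x₁ ∈ Tr.lay V' t := Tr.mem_lay.2 ⟨h1'.1, h1'.2.1⟩
  have l2 : x₂ ∈ Tr.lay V' t := Tr.mem_lay.2 ⟨h2'.1, h2'.2.1⟩
  have m1 : k • x₁.1 ∈ Mx (Tr.img V' t k) u₁ := (Tr.mem_Mx_img hk hn1 ⟨x₁, h1⟩ l1).2 h1'.2.2
  have m2 : k • x₂.1 ∈ Mx (Tr.img V' t k) u₁ := by
    rw [he]
    exact (Tr.mem_Mx_img hk hn2 ⟨x₂, h2⟩ l2).2 h2'.2.2
  have h3 : k • x₁.1 = k • x₂.1 := Finset.card_le_one.1 (by omega) _ m1 _ m2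
  exact hne (Tr.injOn (V := V') (t := t) hk l1 l2 h3)

end MPair

/-- **StmtPair.** -/
theorem t_Pair (hMulti : TPH.StmtMultiAll) (hRay : KPH.StmtRayD) (hDet : KPH.StmtDet)
    (hMatch : StmtMatch) : StmtPair := by
  classical
  intro ι V G u s q D V' t₁ t₂ t₃ c S x y M hV hB hc hS h hx hy
  obtain ⟨W, hWS, ix, iy, hcard⟩ := hMatch ι (E × ℝ) M S x y hx hy
  have hWG : W ⊆ G := hWS.trans hS
  have key : W.card ≤ 12 * evd V' t₁ t₂ t₃ c + 6 := by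
    have hc' := Tr.mem_lay.1 hc
    have hexp : ∀ v ∈ V', ∃ (u : E) (s : ℝ), ∀ v' ∈ V', v' ≠ v → Tr.val u s v' < Tr.val u s v := by
      intro v hv
      obtain ⟨r, s₀, hr⟩ := D.exp v (hV hv)
      exact ⟨r, s₀, fun v' hv' hne => hr v' (hV hv') hne⟩
    have hnn : ∀ g ∈ W, ∀ v ∈ V', Tr.val (u g) (s g) v ≤ q g := fun g hg v hv =>
      D.nn g (hWG hg) v (hV hv)
    have zx : ∀ g ∈ W, x g ∈ Tr.zer V' t₁ (u g) (s g) (q g) := fun g hg => by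
      obtain ⟨h1, h2, -⟩ := h g (hWS hg)
      have h1' := Tr.mem_lay.1 h1
      exact Tr.mem_zer.2 ⟨h1'.1, h1'.2, h2⟩
    have zy : ∀ g ∈ W, y g ∈ Tr.zer V' t₃ (u g) (s g) (q g) := fun g hg => by
      obtain ⟨-, -, h1, h2, -⟩ := h g (hWS hg)
      have h1' := Tr.mem_lay.1 h1
      exact Tr.mem_zer.2 ⟨h1'.1, h1'.2, h2⟩
    have vc : ∀ g ∈ W, Tr.val (u g) (s g) c = q g := fun g hg => by
      have h1 : Tr.zer V t₂ (u g) (s g) (q g) = {c} := (h g (hWS hg)).2.2.2.2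
      have h2 : c ∈ Tr.zer V t₂ (u g) (s g) (q g) := by rw [h1]; simp
      exact (Tr.mem_zer.1 h2).2.2
    have zc : ∀ g ∈ W, Tr.zer V' t₂ (u g) (s g) (q g) = {c} := fun g hg => by
      have h1 : Tr.zer V t₂ (u g) (s g) (q g) = {c} := (h g (hWS hg)).2.2.2.2
      apply Finset.Subset.antisymm
      · intro v hv
        have hv' := Tr.mem_zer.1 hv
        rw [← h1]
        exact Tr.mem_zer.2 ⟨hV hv'.1, hv'.2⟩
      · intro v hv
        rw [Finset.mem_singleton] at hv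
        rw [hv]
        exact Tr.mem_zer.2 ⟨hc'.1, hc'.2, vc g hg⟩
    have cz : ∀ g ∈ W, c ∈ Tr.zer V' t₂ (u g) (s g) (q g) := fun g hg => by rw [zc g hg]; simp
    have up : ∀ {t : ℝ} {g : ι} {v : E × ℝ}, v ∈ Tr.zer V' t (u g) (s g) (q g) →
        v ∈ Tr.zer V t (u g) (s g) (q g) := fun {t g v} hv => by
      have hv' := Tr.mem_zer.1 hv
      exact Tr.mem_zer.2 ⟨hV hv'.1, hv'.2⟩
    have kA : 0 < 2 * wt t₁ t₂ t₃ := by have := hB.wt_pos; linarith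
    have kB : 0 < 2 * wt t₃ t₂ t₁ := by have := hB.symm.wt_pos; linarith
    have hdet : ∀ g ∈ W, ∀ g' ∈ W, ∀ κ : ℝ, 0 < κ → u g' = κ • u g → g' = g :=
      fun g hg g' hg' κ hκ he =>
        hDet ι V G u s q D g (hWG hg) g' (hWG hg') t₁ t₂ κ hB.ne.1 hκ he ⟨x g, up (zx g hg)⟩
          ⟨c, up (cz g hg)⟩ ⟨x g', up (zx g' hg')⟩ ⟨c, up (cz g' hg')⟩
    have hinj : Set.InjOn u (W : Set ι) := by
      intro g hg g' hg' he
      exact hdet g' hg' g hg 1 one_pos (by rw [one_smul]; exact he)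
    obtain ⟨r, s₀, hr⟩ := hexp c hc'.1
    obtain ⟨hray1, hray2⟩ := hRay V' c r s₀ hc'.1 hr
    rw [hc'.2] at hray1 hray2
    have ht := fun g (hg : g ∈ W) => MPair.tie hB (hnn g hg) (D.nz g (hWG hg)) (cz g hg)
      ⟨x g, zx g hg⟩ ⟨y g, zy g hg⟩
    have hmain := hMulti 1 (fun _ => AA V' t₁ t₂ t₃) (fun _ => BB V' t₁ t₂ t₃) (CC V' t₂) c.1 r
      (W.image u) (fun _ => Tr.convPos_img kA hexp) (fun _ => Tr.convPos_img kB hexp)
      (Tr.convPos_img one_pos hexp) (fun _ => hray2 t₁ t₃ hB) hray1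
      (by
        intro w hw
        obtain ⟨g, hg, rfl⟩ := Finset.mem_image.1 hw
        exact ⟨(ht g hg).1, (ht g hg).2.2 (zc g hg), fun _ => (ht g hg).2.1⟩)
      (by
        intro w hw w' hw' κ hκ he
        obtain ⟨g, hg, rfl⟩ := Finset.mem_image.1 hw
        obtain ⟨g', hg', rfl⟩ := Finset.mem_image.1 hw'
        rw [hdet g hg g' hg' κ hκ he])
      (by
        intro w₁ hw₁ w₂ hw₂ w₃ hw₃ n12 n13 n23
        obtain ⟨g₁, hg₁, rfl⟩ := Finset.mem_image.1 hw₁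
        obtain ⟨g₂, hg₂, rfl⟩ := Finset.mem_image.1 hw₂
        have m12 : g₁ ≠ g₂ := fun h => n12 (by rw [h])
        have a1 := MPair.triple kA (hnn g₁ hg₁) (hnn g₂ hg₂) (zx g₁ hg₁) (zx g₂ hg₂)
          (fun he => m12 (ix g₁ hg₁ g₂ hg₂ he))
        have b1 := MPair.triple kB (hnn g₁ hg₁) (hnn g₂ hg₂) (zy g₁ hg₁) (zy g₂ hg₂)
          (fun he => m12 (iy g₁ hg₁ g₂ hg₂ he))
        refine ⟨0, ?_, ?_⟩
        · rcases a1 with a1 | a1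
          · exact Or.inl a1
          · exact Or.inr (Or.inl a1)
        · rcases b1 with b1 | b1
          · exact Or.inl b1
          · exact Or.inr (Or.inl b1))
      (by
        intro _ w₁ hw₁ w₂ hw₂ w₃ hw₃ n12 n13 n23 e he e1 e2 e3
        obtain ⟨g₁, hg₁, rfl⟩ := Finset.mem_image.1 hw₁
        obtain ⟨g₂, hg₂, rfl⟩ := Finset.mem_image.1 hw₂
        obtain ⟨g₃, hg₃, rfl⟩ := Finset.mem_image.1 hw₃
        have m12 : g₁ ≠ g₂ := fun h => n12 (by rw [h])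
        have m13 : g₁ ≠ g₃ := fun h => n13 (by rw [h])
        have m23 : g₂ ≠ g₃ := fun h => n23 (by rw [h])
        obtain ⟨a, b, hab, rfl⟩ := Finset.card_eq_two.1 he
        have ha : a ∈ ({a, b} : Finset E) := by simp
        have hb : b ∈ ({a, b} : Finset E) := by simp
        obtain ⟨p, hp, rfl⟩ := Tr.mem_img.1 (Mx_subset _ _ (e1 ha))
        obtain ⟨p', hp', rfl⟩ := Tr.mem_img.1 (Mx_subset _ _ (e1 hb))
        have lp := Tr.mem_lay.1 hp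
        have lp' := Tr.mem_lay.1 hp'
        have f := fun (g : ι) (hg : g ∈ W) {v : E × ℝ} (hv : v ∈ Tr.lay V' t₁)
          (hm : (2 * wt t₁ t₂ t₃) • v.1 ∈ Mx (Tr.img V' t₁ (2 * wt t₁ t₂ t₃)) (u g)) =>
          (Tr.mem_Mx_img kA (hnn g hg) ⟨x g, zx g hg⟩ hv).1 hm
        refine MPair.no_three D (hWG hg₁) (hWG hg₂) (hWG hg₃) m12 m13 m23 (hV lp.1) (hV lp'.1)
          (hV hc'.1) ?_ ?_ ?_ (f g₁ hg₁ hp (e1 ha)) (f g₂ hg₂ hp (e2 ha)) (f g₃ hg₃ hp (e3 ha))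
          (f g₁ hg₁ hp' (e1 hb)) (f g₂ hg₂ hp' (e2 hb)) (f g₃ hg₃ hp' (e3 hb))
          (vc g₁ hg₁) (vc g₂ hg₂) (vc g₃ hg₃)
        · rintro rfl; exact hab rfl
        · rintro rfl; exact hB.ne.1 (lp.2.symm.trans hc'.2)
        · rintro rfl; exact hB.ne.1 (lp'.2.symm.trans hc'.2))
    rw [Finset.card_image_of_injOn hinj, Fin.sum_univ_one] at hmain
    exact hmain
  exact hcard.trans (Nat.mul_le_mul_left _ key)

end KPX
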