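import Pool.Agent.KPX.Stmts

set_option autoImplicit false

namespace KPX

open TPH KPH

namespace MPart

open Classical in
/-- The layer of height `t`. -/
noncomputable def L (V : Finset (E × ℝ)) (t : ℝ) : Finset (E × ℝ) := V.filter (fun v => v.2 = t)

open Classical in
/-- The number of `v` in its layer. -/
noncomputable def ix (V : Finset (E × ℝ)) (v : E × ℝ) : ℕ := (L V v.2).toList.idxOf v

theorem mem_L {V : Finset (E × ℝ)} {t : ℝ} {v : E × ℝ} : v ∈ L V t ↔ v ∈ V ∧ v.2 = t := by
  unfold L
  rw [Finset.mem_filter]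

theorem ix_lt {V : Finset (E × ℝ)} {v : E × ℝ} (h : v ∈ V) : ix V v < (L V v.2).card := by
  classical
  unfold ix
  rw [← Finset.length_toList]
  exact List.idxOf_lt_length_iff.2 (Finset.mem_toList.2 (mem_L.2 ⟨h, rfl⟩))

theorem ix_inj {V : Finset (E × ℝ)} {v w : E × ℝ} (hv : v ∈ V) (h2 : v.2 = w.2)
    (h : ix V v = ix V w) : v = w := by
  classical
  unfold ix at h
  rw [← h2] at h
  exact (List.idxOf_inj (Finset.mem_toList.2 (mem_L.2 ⟨hv, rfl⟩))).1 h

end MPart

open MPart

theorem t_Part : StmtPart := by
  classical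
  intro V T m hT hm
  refine ⟨T.biUnion (fun t => (Finset.range ((L V t).card / m + 1)).image (fun j => (t, j))),
    fun v => (v.2, ix V v / m), ?_, ?_, ?_⟩
  · intro v hv
    refine ⟨?_, rfl⟩
    rw [Finset.mem_biUnion]
    refine ⟨v.2, hT v hv, ?_⟩
    rw [Finset.mem_image]
    refine ⟨ix V v / m, ?_, rfl⟩
    rw [Finset.mem_range]
    exact Nat.lt_succ_of_le (Nat.div_le_div_right (ix_lt hv).le)
  · intro j
    obtain ⟨t, k⟩ := j
    have h1 : (@Finset.filter (E × ℝ) (fun v => (fun v => (v.2, ix V v / m)) v = (t, k))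
        (Classical.decPred _) V).card ≤ (Finset.Ico (m * k) (m * k + m)).card := by
      refine Finset.card_le_card_of_injOn (fun v => ix V v) ?_ ?_
      · intro v hv
        have hv' := ((@Finset.mem_filter _ _ (Classical.decPred _) _ _).1 (Finset.mem_coe.1 hv)).2
        have h2 : ix V v / m = k := congrArg Prod.snd hv'
        rw [Finset.mem_coe, Finset.mem_Ico]
        subst h2
        refine ⟨Nat.mul_div_le _ _, ?_⟩
        exact Nat.lt_mul_div_succ (ix V v) hm
      · intro v hv w hw h
        have hv' := (@Finset.mem_filter _ _ (Classical.decPred _) _ _).1 (Finset.mem_coe.1 hv)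
        have hw' := (@Finset.mem_filter _ _ (Classical.decPred _) _ _).1 (Finset.mem_coe.1 hw)
        have h2 : v.2 = t := congrArg Prod.fst hv'.2
        have h3 : w.2 = t := congrArg Prod.fst hw'.2
        exact ix_inj hv'.1 (h2.trans h3.symm) h
    rw [Nat.card_Ico, Nat.add_sub_cancel_left] at h1
    exact h1
  · have h1 : (T.biUnion (fun t => (Finset.range ((L V t).card / m + 1)).image
        (fun j => (t, j)))).card ≤ ∑ t ∈ T, ((L V t).card / m + 1) := by
      refine Finset.card_biUnion_le.trans (Finset.sum_le_sum fun t _ => ?_)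
      refine Finset.card_image_le.trans ?_
      rw [Finset.card_range]
    have h2 : ∑ t ∈ T, (L V t).card = V.card := by
      unfold L
      exact (Finset.card_eq_sum_card_fiberwise (f := fun v : E × ℝ => v.2)
        (fun v hv => hT v hv)).symm
    calc m * _ ≤ m * ∑ t ∈ T, ((L V t).card / m + 1) := Nat.mul_le_mul_left _ h1
      _ = ∑ t ∈ T, (m * ((L V t).card / m) + m) := by
        rw [Finset.mul_sum]
        exact Finset.sum_congr rfl fun t _ => by ring
      _ ≤ ∑ t ∈ T, ((L V t).card + m) :=
        Finset.sum_le_sum fun t _ => Nat.add_le_add_right (Nat.mul_div_le _ _) _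
      _ = V.card + m * T.card := by
        rw [Finset.sum_add_distrib, h2, Finset.sum_const, smul_eq_mul, mul_comm]

end KPX
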