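import Pool.Agent.KPX.Stmts

/-!
# The projection from a vertex
-/

set_option autoImplicit false

namespace KPX

open TPH KPH

namespace MPj

theorem mem_sd {V : Finset (E × ℝ)} {σ : ℝ} {c x : E × ℝ} :
    x ∈ sd V σ c ↔ x ∈ V ∧ 0 < σ * (x.2 - c.2) := by
  classical
  simp [sd]

theorem key {c : E × ℝ} {σ : ℝ} (hσ : σ * σ = 1) (u : E) (s : ℝ) (x : E × ℝ)
    (hx : 0 < σ * (x.2 - c.2)) :
    Tr.val u s c - Tr.val u s x = (σ * (x.2 - c.2)) * (-(σ * s) - ip (pj σ c x) u) := by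
  have h1 : (σ * (x.2 - c.2)) * ip (pj σ c x) u = ip (x.1 - c.1) u := by
    rw [pj, ip_smul_left, ← mul_assoc, mul_inv_cancel₀ hx.ne', one_mul]
  rw [ip_sub_left] at h1
  unfold Tr.val
  linear_combination h1 + s * (x.2 - c.2) * hσ

theorem lt_of {V : Finset (E × ℝ)} {c : E × ℝ} {σ : ℝ} (hc : c ∈ V) (hσ : σ * σ = 1)
    {x x' : E × ℝ} (hx : x ∈ sd V σ c) (hx' : x' ∈ sd V σ c) (hp : pj σ c x = pj σ c x')
    (hne : x' ≠ x)
    (hexp : ∃ (u : E) (s : ℝ), ∀ v' ∈ V, v' ≠ x → Tr.val u s v' < Tr.val u s x) :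
    σ * (x'.2 - c.2) < σ * (x.2 - c.2) := by
  obtain ⟨u, s, h⟩ := hexp
  rw [mem_sd] at hx hx'
  have hcx : c ≠ x := by
    rintro rfl
    have := hx.2
    simp at this
  have h1 := h c hc hcx
  have h2 := h x' hx'.1 hne
  have k1 := key hσ u s x hx.2
  have k2 := key hσ u s x' hx'.2
  rw [← hp] at k2
  have p1 := hx.2
  have p2 := hx'.2
  generalize -(σ * s) - ip (pj σ c x) u = R at k1 k2
  generalize σ * (x.2 - c.2) = k at k1 p1 ⊢
  generalize σ * (x'.2 - c.2) = k' at k2 p2 ⊢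
  have hR : R < 0 := by
    by_contra hR
    have := mul_nonneg p1.le (not_lt.1 hR)
    linarith
  by_contra hk
  have hk' : k ≤ k' := not_lt.1 hk
  have := mul_le_mul_of_nonpos_right hk' hR.le
  linarith

end MPj

theorem t_Pj : StmtPj := by
  intro V c σ hc hσ hexp
  refine ⟨fun x hx x' hx' hp => ?_, fun u s x hx => MPj.key hσ u s x hx⟩
  by_contra hne
  have h1 := MPj.lt_of hc hσ hx hx' hp (fun h => hne h.symm) (hexp x (MPj.mem_sd.1 hx).1)
  have h2 := MPj.lt_of hc hσ hx' hx hp.symm hne (hexp x' (MPj.mem_sd.1 hx').1)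
  linarith

end KPX
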