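import Pool.Agent.KPX.Stmts

/-!
# The maximisers on the projected points
-/

set_option autoImplicit false

namespace KPX

open TPH KPH

namespace MPjMx

theorem mem_sd {V : Finset (E × ℝ)} {σ : ℝ} {c x : E × ℝ} :
    x ∈ sd V σ c ↔ x ∈ V ∧ 0 < σ * (x.2 - c.2) := by
  classical
  simp [sd]

theorem mem_PJ {σ : ℝ} {c : E × ℝ} {X : Finset (E × ℝ)} {a : E} :
    a ∈ PJ σ c X ↔ ∃ x ∈ X, pj σ c x = a := by
  classical
  simp [PJ]

/-- The value of a projected point is at most `-(σ s)`. -/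
theorem ip_le {σ : ℝ} {c y : E × ℝ} {u : E} {s : ℝ} (hk : 0 < σ * (y.2 - c.2))
    (hid : Tr.val u s c - Tr.val u s y = (σ * (y.2 - c.2)) * (-(σ * s) - ip (pj σ c y) u))
    (hmax : Tr.val u s y ≤ Tr.val u s c) : ip (pj σ c y) u ≤ -(σ * s) := by
  by_contra hcon
  push Not at hcon
  have h1 : -(σ * s) - ip (pj σ c y) u < 0 := by linarith
  have h2 := mul_neg_of_pos_of_neg hk h1
  rw [← hid] at h2
  linarith

/-- Equality characterises the points in the facet. -/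
theorem ip_eq {σ : ℝ} {c y : E × ℝ} {u : E} {s : ℝ} (hk : 0 < σ * (y.2 - c.2))
    (hid : Tr.val u s c - Tr.val u s y = (σ * (y.2 - c.2)) * (-(σ * s) - ip (pj σ c y) u)) :
    ip (pj σ c y) u = -(σ * s) ↔ Tr.val u s y = Tr.val u s c := by
  constructor
  · intro h
    rw [h, sub_self, mul_zero] at hid
    linarith
  · intro h
    rw [h, sub_self] at hid
    rcases mul_eq_zero.1 hid.symm with h1 | h1
    · exact absurd h1 hk.ne'
    · linarith

end MPjMx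

open MPjMx in
theorem t_PjMx (hPj : StmtPj) : StmtPjMx := by
  intro V c σ hc hσ hexp X hX u s hmax hx₀ x hx
  obtain ⟨x₀, hx₀, hv₀⟩ := hx₀
  obtain ⟨-, hid⟩ := hPj V c σ hc hσ hexp
  have hsd : ∀ y ∈ X, y ∈ V ∧ 0 < σ * (y.2 - c.2) := fun y hy => mem_sd.1 (hX hy)
  have e0 : ip (pj σ c x₀) u = -(σ * s) :=
    (ip_eq (hsd x₀ hx₀).2 (hid u s x₀ (hsd x₀ hx₀).2)).2 hv₀
  have hle : ∀ y ∈ X, ip (pj σ c y) u ≤ -(σ * s) := fun y hy =>
    ip_le (hsd y hy).2 (hid u s y (hsd y hy).2) (hmax y (hsd y hy).1)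
  rw [← ip_eq (hsd x hx).2 (hid u s x (hsd x hx).2), mem_Mx]
  constructor
  · rintro ⟨-, h2⟩
    have h3 := h2 (pj σ c x₀) (mem_PJ.2 ⟨x₀, hx₀, rfl⟩)
    rw [e0] at h3
    exact le_antisymm (hle x hx) h3
  · intro h
    refine ⟨mem_PJ.2 ⟨x, hx, rfl⟩, ?_⟩
    intro a ha
    obtain ⟨y, hy, rfl⟩ := mem_PJ.1 ha
    rw [h]
    exact hle y hy

end KPX
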