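import Pool.Agent.KPX.Stmts

/-!
# Few facets at `c` contain two given points of a set of exposed neighbours (module KPX_Sparse)
-/

set_option autoImplicit false

namespace KPX

open TPH KPH

namespace MSparse

theorem mem_sd {V : Finset (E × ℝ)} {σ : ℝ} {c x : E × ℝ} :
    x ∈ sd V σ c ↔ x ∈ V ∧ 0 < σ * (x.2 - c.2) := by
  classical
  simp [sd]

theorem mem_PJ {σ : ℝ} {c : E × ℝ} {X : Finset (E × ℝ)} {a : E} :
    a ∈ PJ σ c X ↔ ∃ x ∈ X, pj σ c x = a := by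
  classical
  simp [PJ]

theorem card_PJ_le (σ : ℝ) (c : E × ℝ) (X : Finset (E × ℝ)) : (PJ σ c X).card ≤ X.card := by
  classical
  exact Finset.card_image_le

theorem convPos {V : Finset (E × ℝ)} {σ : ℝ} {c : E × ℝ} {X : Finset (E × ℝ)} (hX : X ⊆ sd V σ c)
    (h : ∀ x ∈ X, ∃ w, Mx (PJ σ c (sd V σ c)) w = {pj σ c x}) : ConvPos (PJ σ c X) := by
  intro a ha
  obtain ⟨x, hx, rfl⟩ := mem_PJ.1 ha
  obtain ⟨w, hw⟩ := h x hx
  have hsub : ∀ b ∈ PJ σ c X, b ∈ PJ σ c (sd V σ c) := by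
    intro b hb
    obtain ⟨z, hz, rfl⟩ := mem_PJ.1 hb
    exact mem_PJ.2 ⟨z, hX hz, rfl⟩
  have hm : pj σ c x ∈ Mx (PJ σ c (sd V σ c)) w := by
    rw [hw]
    exact Finset.mem_singleton_self _
  refine ⟨w, ?_⟩
  ext b
  rw [Finset.mem_singleton]
  constructor
  · intro hb
    have hb' := mem_Mx.1 hb
    have h1 := hb'.2 _ ha
    have h2 := Mx_le hm (hsub b hb'.1)
    have h3 := mem_Mx_of_eq hm (hsub b hb'.1) (le_antisymm h2 h1)
    rw [hw] at h3
    exact Finset.mem_singleton.1 h3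
  · rintro rfl
    exact mem_Mx.2 ⟨ha, fun b hb => Mx_le hm (hsub b hb)⟩

theorem mem_Ed' {A e : Finset E} : e ∈ Ed A ↔ e ⊆ A ∧ e.card = 2 ∧ ∃ u, Mx A u = e := by
  simp only [Ed, Finset.mem_filter, Finset.mem_powerset]

theorem mem_Faces' {A e : Finset E} :
    e ∈ Faces A ↔ e ⊆ A ∧ 3 ≤ e.card ∧ ∃ u, u ≠ 0 ∧ Mx A u = e := by
  simp only [Faces, Finset.mem_filter, Finset.mem_powerset]

end MSparse

open MSparse in
theorem t_Sparse (hEL : TPH.StmtEdgeLin) (hPj : StmtPj) (hPjMx : StmtPjMx) : StmtSparse := by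
  classical
  intro ι V G u s q hD c σ hc hσ S p p' X hSG hXsd hXexp hS
  have hinj := (hPj V c σ hc hσ hD.exp).1
  have key : ∀ g ∈ S, ∀ x ∈ X,
      (pj σ c x ∈ Mx (PJ σ c X) (u g) ↔ Tr.val (u g) (s g) x = q g) := by
    intro g hg x hx
    obtain ⟨_, hcq, hpX, _, _, hpq, _⟩ := hS g hg
    have h1 := hPjMx V c σ hc hσ hD.exp X hXsd (u g) (s g)
      (fun v hv => by rw [hcq]; exact hD.nn g (hSG hg) v hv)
      ⟨p g, hpX, by rw [hpq, hcq]⟩ x hx
    rw [hcq] at h1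
    exact h1
  have hA := hEL (PJ σ c X) (convPos hXsd hXexp)
  have hmaps : ∀ g ∈ S, Mx (PJ σ c X) (u g) ∈ Ed (PJ σ c X) ∪ Faces (PJ σ c X) := by
    intro g hg
    obtain ⟨hu, hcq, hpX, hpX', hne, hpq, hpq'⟩ := hS g hg
    have m1 := (key g hg (p g) hpX).2 hpq
    have m2 := (key g hg (p' g) hpX').2 hpq'
    have hne' : pj σ c (p g) ≠ pj σ c (p' g) :=
      fun h => hne (hinj _ (hXsd hpX) _ (hXsd hpX') h)
    have hcard : 1 < (Mx (PJ σ c X) (u g)).card :=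
      Finset.one_lt_card.2 ⟨_, m1, _, m2, hne'⟩
    rw [Finset.mem_union]
    rcases Nat.lt_or_ge (Mx (PJ σ c X) (u g)).card 3 with h | h
    · left
      exact mem_Ed'.2 ⟨Mx_subset _ _, by omega, u g, rfl⟩
    · right
      exact mem_Faces'.2 ⟨Mx_subset _ _, h, u g, hu, rfl⟩
  have hfib : ∀ F ∈ Ed (PJ σ c X) ∪ Faces (PJ σ c X),
      (S.filter (fun g => Mx (PJ σ c X) (u g) = F)).card ≤ 2 := by
    intro F _
    rcases (S.filter (fun g => Mx (PJ σ c X) (u g) = F)).eq_empty_or_nonempty with h | ⟨g0, hg0⟩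
    · rw [h]
      simp
    · rw [Finset.mem_filter] at hg0
      obtain ⟨hg0S, hg0F⟩ := hg0
      obtain ⟨hu, hcq, hpX, hpX', hne, hpq, hpq'⟩ := hS g0 hg0S
      have m1 := (key g0 hg0S (p g0) hpX).2 hpq
      have m2 := (key g0 hg0S (p' g0) hpX').2 hpq'
      have hsd1 := mem_sd.1 (hXsd hpX)
      have hsd2 := mem_sd.1 (hXsd hpX')
      have hnc : ∀ x : E × ℝ, 0 < σ * (x.2 - c.2) → x ≠ c := by
        rintro x hx rfl
        simp at hx
      refine hD.two (p g0) hsd1.1 (p' g0) hsd2.1 c hc hne (hnc _ hsd1.2) (hnc _ hsd2.2) _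
        ((Finset.filter_subset _ _).trans hSG) ?_
      intro g hg
      rw [Finset.mem_filter] at hg
      obtain ⟨hgS, hgF⟩ := hg
      refine ⟨(key g hgS (p g0) hpX).1 ?_, (key g hgS (p' g0) hpX').1 ?_, (hS g hgS).2.1⟩
      · rw [hgF, ← hg0F]
        exact m1
      · rw [hgF, ← hg0F]
        exact m2
  have h1 := Finset.card_le_mul_card_image_of_maps_to hmaps 2 hfib
  have h2 := Finset.card_union_le (Ed (PJ σ c X)) (Faces (PJ σ c X))
  have h3 := card_PJ_le σ c X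
  have h4 := hA.1
  have h5 := hA.2.2
  omega

end KPX
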