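import Pool.Agent.KPX.Stmts

/-!
# Vertices on `k` parallel hyperplanes, the bound `K k^(3/2) n^(3/2)`: the total count
-/

set_option autoImplicit false

namespace KPX

open TPH KPH

namespace MTotalX

theorem sum_lay {V : Finset (E × ℝ)} {T : Finset ℝ} (hT : ∀ v ∈ V, v.2 ∈ T) :
    ∑ t ∈ T, ((Tr.lay V t).card : ℝ) = V.card := by
  classical
  have h := Finset.card_eq_sum_card_fiberwise (f := fun v : E × ℝ => v.2) (s := V) (t := T)
    (fun v hv => hT v hv)
  rw [h]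
  push_cast
  refine Finset.sum_congr rfl (fun t _ => ?_)
  have : Tr.lay V t = V.filter (fun v => v.2 = t) := by
    ext v
    rw [Tr.mem_lay, Finset.mem_filter]
  rw [this]

theorem sum3' (T : Finset ℝ) (x : ℝ → ℝ) (α β : ℝ) :
    ∑ a ∈ T, ∑ b ∈ T, ∑ _c ∈ T, (α * x b + β * x a) =
    (α + β) * (T.card : ℝ) ^ 2 * ∑ t ∈ T, x t := by
  simp only [Finset.sum_add_distrib, Finset.sum_const, nsmul_eq_mul, ← Finset.mul_sum]
  ring

open Classical in
theorem card1 {ι : Type} (T : Finset ℝ) (F' : ℝ → Finset ι) (y' : ℝ → ℝ)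
    (h' : ∀ a ∈ T, ((F' a).card : ℝ) ≤ y' a) :
    ((T.biUnion F').card : ℝ) ≤ ∑ a ∈ T, y' a := by
  calc ((T.biUnion F').card : ℝ) ≤ ((∑ a ∈ T, (F' a).card : ℕ) : ℝ) := by
        exact_mod_cast Finset.card_biUnion_le
    _ = ∑ a ∈ T, ((F' a).card : ℝ) := by push_cast; rfl
    _ ≤ ∑ a ∈ T, y' a := Finset.sum_le_sum h'

/-- The powers `3/2` as products with square roots. -/
theorem pow_eq {x : ℝ} (hx : 0 < x) : x ^ (3 / 2 : ℝ) = x * √x := by
  rw [Real.sqrt_eq_rpow, show (3 / 2 : ℝ) = 1 + 1 / 2 by norm_num, Real.rpow_add hx, Real.rpow_one]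

/-- The computation for the classes of size `m`. -/
theorem calc_main {k n m j : ℝ} (hk : 0 < k) (hn : 0 < n) (hm : 0 < m) (hj0 : 0 ≤ j)
    (hj : j ≤ 2 * k) (hmk : m * k ≤ 2 * n) :
    j ^ 3 * m ^ (3 / 2 : ℝ) ≤ 32 * (k ^ (3 / 2 : ℝ) * n ^ (3 / 2 : ℝ)) := by
  rw [pow_eq hk, pow_eq hn, pow_eq hm]
  have h1 : j ^ 3 ≤ (2 * k) ^ 3 := pow_le_pow_left₀ hj0 hj 3
  have h2 : √m * √k ≤ 2 * √n := by
    rw [← Real.sqrt_mul hm.le]
    calc √(m * k) ≤ √(2 ^ 2 * n) := Real.sqrt_le_sqrt (by nlinarith)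
      _ = 2 * √n := by rw [Real.sqrt_mul (by positivity), Real.sqrt_sq (by norm_num)]
  have hs : √k * √k = k := Real.mul_self_sqrt hk.le
  have hm0 : 0 ≤ m * √m := by positivity
  calc j ^ 3 * (m * √m) ≤ (2 * k) ^ 3 * (m * √m) := mul_le_mul_of_nonneg_right h1 hm0
    _ = 8 * (k * (√k * √k)) * k * (m * √m) := by rw [hs]; ring
    _ = 8 * (k * √k) * ((m * k) * (√m * √k)) := by ring
    _ ≤ 8 * (k * √k) * ((2 * n) * (2 * √n)) := by
        refine mul_le_mul_of_nonneg_left ?_ (by positivity)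
        exact mul_le_mul hmk h2 (by positivity) (by positivity)
    _ = 32 * (k * √k * (n * √n)) := by ring

/-- The bound with the set of the heights which occur. -/
theorem bound (hEL : TPH.StmtEdgeLin) (hZero : KPH.StmtZeroD) (hMid : KPH.StmtMidD)
    (hMedian : StmtMedian) (hPart : StmtPart) {K₀ : ℝ} (hK₀ : 0 < K₀)
    (hMain : ∀ (ι : Type) (V : Finset (E × ℝ)) (G : Finset ι) (u : ι → E)
      (s q : ι → ℝ), Tr.Data V G u s q → ∀ (S : Finset ι), S ⊆ G →
      (∀ g ∈ S, u g ≠ 0 ∧ ∃ c ∈ V, Zr V (u g) (s g) (q g) c.2 = {c} ∧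
        ∀ σ : ℝ, σ = 1 ∨ σ = -1 → ∃ z ∈ sd V σ c, ∃ z' ∈ sd V σ c, z ≠ z' ∧
          Tr.val (u g) (s g) z = q g ∧ Tr.val (u g) (s g) z' = q g) →
      ∀ (m : ℕ) (J : Finset (ℝ × ℕ)) (cl : E × ℝ → ℝ × ℕ), 0 < m →
      (∀ v ∈ V, cl v ∈ J ∧ (cl v).1 = v.2) →
      (∀ j : ℝ × ℕ,
        (@Finset.filter (E × ℝ) (fun v => cl v = j) (Classical.decPred _) V).card ≤ m) →
      (S.card : ℝ) ≤ K₀ * (J.card : ℝ) ^ 3 * (m : ℝ) ^ (3 / 2 : ℝ))
    {ι : Type} {V : Finset (E × ℝ)} {G : Finset ι} {u : ι → E} {s q : ι → ℝ}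
    (D : Tr.Data V G u s q) (T : Finset ℝ) (hT : ∀ v ∈ V, v.2 ∈ T) (hT1 : 0 < T.card)
    (hTn : T.card ≤ V.card) :
    (G.card : ℝ) ≤ (31 + 32 * K₀) * ((T.card : ℝ) ^ (3 / 2 : ℝ) * (V.card : ℝ) ^ (3 / 2 : ℝ)) := by
  classical
  have hn1' : 0 < V.card := lt_of_lt_of_le hT1 hTn
  have hn1 : (1 : ℝ) ≤ V.card := by exact_mod_cast hn1'
  have hk1 : (1 : ℝ) ≤ T.card := by exact_mod_cast hT1
  have hkn : (T.card : ℝ) ≤ V.card := by exact_mod_cast hTn
  set n : ℝ := (V.card : ℝ) with hn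
  set k : ℝ := (T.card : ℝ) with hk
  set x : ℝ → ℝ := fun t => ((Tr.lay V t).card : ℝ) with hx
  have hsum : ∑ t ∈ T, x t = n := sum_lay hT
  have hx0 : ∀ t, 0 ≤ x t := fun t => Nat.cast_nonneg _
  -- the classes
  set G0 := G.filter (fun g => u g = 0) with hG0
  set Ga : ℝ → Finset ι := fun t => G.filter (fun g => u g ≠ 0 ∧
    3 ≤ (Zr V (u g) (s g) (q g) t).card) with hGa
  set Gb : ℝ → ℝ → ℝ → Finset ι := fun t₁ t₂ t₃ => G.filter (fun g => Btw t₁ t₂ t₃ ∧
    (Zr V (u g) (s g) (q g) t₂).card = 2 ∧ (Zr V (u g) (s g) (q g) t₁).Nonempty ∧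
      (Zr V (u g) (s g) (q g) t₃).Nonempty) with hGb
  set Gc : Finset ι := G.filter (fun g => u g ≠ 0 ∧ ∃ c ∈ V, Zr V (u g) (s g) (q g) c.2 = {c} ∧
    ∀ σ : ℝ, σ = 1 ∨ σ = -1 → ∃ z ∈ sd V σ c, ∃ z' ∈ sd V σ c, z ≠ z' ∧
      Tr.val (u g) (s g) z = q g ∧ Tr.val (u g) (s g) z' = q g) with hGc
  have hcover : G ⊆ G0 ∪ (T.biUnion Ga) ∪
      (T.biUnion fun a => T.biUnion fun b => T.biUnion fun c => Gb a b c) ∪ Gc := by
    intro g hg
    by_cases hu : u g = 0
    · exact Finset.mem_union_left _ (Finset.mem_union_left _ (Finset.mem_union_left _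
        (Finset.mem_filter.2 ⟨hg, hu⟩)))
    rcases hMedian ι V G u s q D T hT g hg with
      ⟨t, ht, h3⟩ | ⟨a, ha, b, hb, c, hc, hB, h2, h1, h3⟩ | h
    · exact Finset.mem_union_left _ (Finset.mem_union_left _ (Finset.mem_union_right _
          (Finset.mem_biUnion.2 ⟨t, ht, Finset.mem_filter.2 ⟨hg, hu, h3⟩⟩)))
    · refine Finset.mem_union_left _ (Finset.mem_union_right _ ?_)
      exact Finset.mem_biUnion.2 ⟨a, ha, Finset.mem_biUnion.2 ⟨b, hb, Finset.mem_biUnion.2 ⟨c, hc,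
        Finset.mem_filter.2 ⟨hg, hB, h2, h1, h3⟩⟩⟩⟩
    · exact Finset.mem_union_right _ (Finset.mem_filter.2 ⟨hg, hu, h⟩)
  -- the bounds
  have b0 : (G0.card : ℝ) ≤ k := by
    have := hZero ι V G u s q D T G0 hT (Finset.filter_subset _ _)
      (fun g hg => (Finset.mem_filter.1 hg).2)
    have h' : (G0.card : ℝ) ≤ (T.card : ℝ) := by exact_mod_cast this
    exact h'
  have ba : ((T.biUnion Ga).card : ℝ) ≤ 4 * n := by
    refine (card1 T Ga (fun t => 4 * x t) (fun t _ => ?_)).trans ?_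
    · have := Tr.count_three D hEL (t := t) one_pos (Ga t)
        (Finset.filter_subset _ _) (fun g hg => (Finset.mem_filter.1 hg).2.1)
        (fun g hg => (Finset.mem_filter.1 hg).2.2)
      have h' : ((Ga t).card : ℝ) ≤ 4 * ((Tr.lay V t).card : ℝ) := by exact_mod_cast this
      exact h'
    · rw [← Finset.mul_sum, hsum]
  have bb : ((T.biUnion fun a => T.biUnion fun b => T.biUnion fun c => Gb a b c).card : ℝ) ≤
      26 * k ^ 2 * n := by
    refine (card1 T _ (fun a => ∑ b ∈ T, ∑ c ∈ T, (24 * x b + 2 * x a)) (fun a _ =>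
      card1 T _ _ (fun b _ => card1 T _ _ (fun c _ => ?_)))).trans ?_
    · by_cases hB : Btw a b c
      · have := hMid ι V G u s q D a b c (Gb a b c) hB (Finset.filter_subset _ _)
          (fun g hg => (Finset.mem_filter.1 hg).2.2)
        have h' : ((Gb a b c).card : ℝ) ≤ 24 * ((Tr.lay V b).card : ℝ) +
          2 * ((Tr.lay V a).card : ℝ) := by exact_mod_cast this
        exact h'
      · have : Gb a b c = ∅ := by
          rw [Finset.eq_empty_iff_forall_notMem]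
          intro g hg
          exact hB (Finset.mem_filter.1 hg).2.1
        rw [this, Finset.card_empty, Nat.cast_zero]
        have := hx0 a
        have := hx0 b
        positivity
    · rw [sum3', hsum]
      exact le_of_eq (by ring)
  have bc : (Gc.card : ℝ) ≤ 32 * K₀ * (k ^ (3 / 2 : ℝ) * n ^ (3 / 2 : ℝ)) := by
    set m : ℕ := V.card / T.card + 1 with hm
    have hm0 : 0 < m := Nat.succ_pos _
    obtain ⟨J, cl, hcl, hfib, hJ⟩ := hPart V T m hT hm0
    have h1 := hMain ι V G u s q D Gc (Finset.filter_subset _ _)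
      (fun g hg => (Finset.mem_filter.1 hg).2) m J cl hm0 hcl hfib
    have hnm : V.card < m * T.card := by
      have := Nat.lt_div_mul_add (a := V.card) hT1
      rw [hm, add_mul, one_mul]
      exact this
    have hJ2 : J.card ≤ 2 * T.card := by
      by_contra hc
      have h3 : m * (2 * T.card) < m * J.card := Nat.mul_lt_mul_of_pos_left (by omega) hm0
      have h4 : m * (2 * T.card) = m * T.card + m * T.card := by ring
      omega
    have hmk : m * T.card ≤ 2 * V.card := by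
      have := Nat.div_mul_le_self V.card T.card
      rw [hm, add_mul, one_mul]
      omega
    have hJ2' : (J.card : ℝ) ≤ 2 * k := by
      have : (J.card : ℝ) ≤ 2 * (T.card : ℝ) := by exact_mod_cast hJ2
      exact this
    have hmk' : (m : ℝ) * k ≤ 2 * n := by
      have : (m : ℝ) * (T.card : ℝ) ≤ 2 * (V.card : ℝ) := by exact_mod_cast hmk
      exact this
    have hm0' : (0 : ℝ) < m := by exact_mod_cast hm0
    have h2 := calc_main (by linarith : 0 < k) (by linarith : 0 < n) hm0' (Nat.cast_nonneg J.card)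
      hJ2' hmk'
    have h5 := mul_le_mul_of_nonneg_left h2 hK₀.le
    calc (Gc.card : ℝ) ≤ K₀ * (J.card : ℝ) ^ 3 * (m : ℝ) ^ (3 / 2 : ℝ) := h1
      _ = K₀ * ((J.card : ℝ) ^ 3 * (m : ℝ) ^ (3 / 2 : ℝ)) := by ring
      _ ≤ K₀ * (32 * (k ^ (3 / 2 : ℝ) * n ^ (3 / 2 : ℝ))) := h5
      _ = 32 * K₀ * (k ^ (3 / 2 : ℝ) * n ^ (3 / 2 : ℝ)) := by ring
  -- the sum
  have hc : (G.card : ℝ) ≤ G0.card + (T.biUnion Ga).card +
      (T.biUnion fun a => T.biUnion fun b => T.biUnion fun c => Gb a b c).card + Gc.card := by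
    have h1 := Finset.card_le_card hcover
    have h2 := h1.trans (Finset.card_union_le _ _)
    have h3 := h2.trans (Nat.add_le_add_right (Finset.card_union_le _ _) _)
    have h4 := h3.trans (Nat.add_le_add_right (Nat.add_le_add_right
      (Finset.card_union_le _ _) _) _)
    exact_mod_cast h4
  have hS1 : 1 ≤ √k := Real.one_le_sqrt.2 hk1
  have hR1 : 1 ≤ √n := Real.one_le_sqrt.2 hn1
  have hSR : √k ≤ √n := Real.sqrt_le_sqrt hkn
  have hs : √k * √k = k := Real.mul_self_sqrt (by linarith)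
  have hk0 : 0 ≤ k := by linarith
  have hn0 : 0 ≤ n := by linarith
  set P : ℝ := k ^ (3 / 2 : ℝ) * n ^ (3 / 2 : ℝ) with hP
  have hP' : P = (k * √k) * (n * √n) := by
    rw [hP, pow_eq (by linarith : 0 < k), pow_eq (by linarith : 0 < n)]
  have hkS : 1 ≤ k * √k := one_le_mul_of_one_le_of_one_le hk1 hS1
  have hnR : 1 ≤ n * √n := one_le_mul_of_one_le_of_one_le hn1 hR1
  have e0 : k ≤ P := by
    rw [hP']
    exact (le_mul_of_one_le_right hk0 hS1).trans (le_mul_of_one_le_right (by positivity) hnR)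
  have e1 : n ≤ P := by
    rw [hP']
    exact (le_mul_of_one_le_right hn0 hR1).trans (le_mul_of_one_le_left (by positivity) hkS)
  have e2 : k ^ 2 * n ≤ P := by
    rw [hP']
    calc k ^ 2 * n = (k * √k) * (n * √k) := by
          rw [show (k * √k) * (n * √k) = k * (√k * √k) * n by ring, hs]; ring
      _ ≤ (k * √k) * (n * √n) := by
          refine mul_le_mul_of_nonneg_left ?_ (by positivity)
          exact mul_le_mul_of_nonneg_left hSR hn0
  calc (G.card : ℝ) ≤ k + 4 * n + 26 * k ^ 2 * n + 32 * K₀ * P := by linarith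
    _ ≤ (31 + 32 * K₀) * P := by nlinarith

end MTotalX

open MTotalX in
theorem t_TotalX (hEL : TPH.StmtEdgeLin) (hZero : KPH.StmtZeroD) (hMid : KPH.StmtMidD)
    (hMedian : StmtMedian) (hPart : StmtPart) (hMain : StmtMain) : StmtTotalX := by
  classical
  obtain ⟨K₀, hK₀, hMain'⟩ := hMain
  refine ⟨31 + 32 * K₀, by positivity, ?_⟩
  intro ι V G u s q D T hT
  rcases G.eq_empty_or_nonempty with hG | ⟨g0, hg0⟩
  · rw [hG, Finset.card_empty, Nat.cast_zero]
    positivity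
  have hVne : V.Nonempty := by
    obtain ⟨Z, hZ, hZV⟩ := D.five g0 hg0
    obtain ⟨v, hv⟩ := Finset.card_pos.1 (by omega : 0 < Z.card)
    exact ⟨v, (hZV v hv).1⟩
  have h1 := bound hEL hZero hMid hMedian hPart hK₀ hMain' D (V.image Prod.snd)
    (fun v hv => Finset.mem_image_of_mem _ hv) (Finset.card_pos.2 (hVne.image _))
    Finset.card_image_le
  have h2 : ((V.image Prod.snd).card : ℝ) ≤ T.card := by
    have : (V.image Prod.snd).card ≤ T.card := by
      refine Finset.card_le_card ?_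
      intro t ht
      obtain ⟨v, hv, rfl⟩ := Finset.mem_image.1 ht
      exact hT v hv
    exact_mod_cast this
  have h3 : ((V.image Prod.snd).card : ℝ) ^ (3 / 2 : ℝ) ≤ (T.card : ℝ) ^ (3 / 2 : ℝ) :=
    Real.rpow_le_rpow (Nat.cast_nonneg _) h2 (by norm_num)
  have h4 : 0 ≤ (V.card : ℝ) ^ (3 / 2 : ℝ) := Real.rpow_nonneg (Nat.cast_nonneg _) _
  calc (G.card : ℝ) ≤ (31 + 32 * K₀) *
        (((V.image Prod.snd).card : ℝ) ^ (3 / 2 : ℝ) * (V.card : ℝ) ^ (3 / 2 : ℝ)) := h1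
    _ ≤ (31 + 32 * K₀) * ((T.card : ℝ) ^ (3 / 2 : ℝ) * (V.card : ℝ) ^ (3 / 2 : ℝ)) := by
        refine mul_le_mul_of_nonneg_left ?_ (by positivity)
        exact mul_le_mul_of_nonneg_right h3 h4
    _ = (31 + 32 * K₀) * (T.card : ℝ) ^ (3 / 2 : ℝ) * (V.card : ℝ) ^ (3 / 2 : ℝ) := by ring

end KPX
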