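import Pool.Agent.KPH.Closed
import Pool.Agent.TPH.TrB
import Pool.Agent.KPX.Deg
import Pool.Agent.KPX.Match
import Pool.Agent.KPX.ExpTwo
import Pool.Agent.KPX.Pj
import Pool.Agent.KPX.PjMx
import Pool.Agent.KPX.Sparse
import Pool.Agent.KPX.Assign
import Pool.Agent.KPX.Pair
import Pool.Agent.KPX.Median
import Pool.Agent.KPX.Part
import Pool.Agent.KPX.Main
import Pool.Agent.KPX.TotalX

/-!
# Vertices on `k` parallel hyperplanes: the bound `K k^(3/2) n^(3/2)`, all statements closed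
-/

set_option autoImplicit false

namespace KPX

open TPH

namespace Closed

theorem c_t_Deg : StmtDeg := KPX.t_Deg
theorem c_t_Match : StmtMatch := KPX.t_Match
theorem c_t_ExpTwo : StmtExpTwo := KPX.t_ExpTwo TPH.Closed.c_t_Generic
theorem c_t_Pj : StmtPj := KPX.t_Pj
theorem c_t_PjMx : StmtPjMx := KPX.t_PjMx c_t_Pj
theorem c_t_Sparse : StmtSparse := KPX.t_Sparse TPH.Closed.c_t_EdgeLin c_t_Pj c_t_PjMx
theorem c_t_Assign : StmtAssign :=
  KPX.t_Assign c_t_Deg c_t_ExpTwo c_t_Pj c_t_PjMx c_t_Sparse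
theorem c_t_Pair : StmtPair :=
  KPX.t_Pair KPH.Closed.c_t_MultiAll KPH.Closed.c_t_RayD KPH.Closed.c_t_Det c_t_Match
theorem c_t_Median : StmtMedian := KPX.t_Median
theorem c_t_Part : StmtPart := KPX.t_Part
theorem c_t_Main : StmtMain := KPX.t_Main KPH.Closed.c_t_Wd c_t_Assign c_t_Pair
theorem c_t_TotalX : StmtTotalX :=
  KPX.t_TotalX TPH.Closed.c_t_EdgeLin KPH.Closed.c_t_ZeroD KPH.Closed.c_t_MidD c_t_Median c_t_Part
    c_t_Main

/-- The bound for facet data. -/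
theorem total : StmtTotalX := c_t_TotalX

end Closed

/-- **The bound for polytopes**, from the bound for facet data. -/
theorem bound (hTot : StmtTotalX) : ∃ K : ℝ, 0 < K ∧
    ∀ {W : Type} [NormedAddCommGroup W] [NormedSpace ℝ W] [FiniteDimensional ℝ W],
    Module.finrank ℝ W = 4 → ∀ S P : Set W, S.Finite → affineSpan ℝ S = ⊤ → P = convexHull ℝ S →
    ∀ l : W →ₗ[ℝ] ℝ, l ≠ 0 → ∀ T : Finset ℝ, (∀ v ∈ P.extremePoints ℝ, l v ∈ T) →
    ∀ n : ℕ, (P.extremePoints ℝ).encard = n →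
    ∃ N : ℕ, {F : Set W | IsExposed ℝ P F ∧ Module.finrank ℝ (vectorSpan ℝ F) = 3 ∧
        (F.extremePoints ℝ).encard ≠ 4}.encard = N ∧
      (N : ℝ) ≤ K * (T.card : ℝ) ^ (3 / 2 : ℝ) * (n : ℝ) ^ (3 / 2 : ℝ) := by
  obtain ⟨K, hK0, hK⟩ := hTot
  refine ⟨K, hK0, ?_⟩
  intro W _ _ _ hdim S P hS hspan hP l hl T hT n hn
  obtain ⟨V, G, u, s, q, D, hV, hG, hlV⟩ := Tr.exists_facet_data hdim hS hspan hP l hl n hn
  refine ⟨G.card, hG, ?_⟩
  have h := hK (Set W) V G u s q D T (fun v hv => by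
    obtain ⟨x, hx, he⟩ := hlV v hv
    rw [← he]
    exact hT x hx)
  rw [hV] at h
  exact h

/-- **The bound for polytopes.** -/
theorem bound' : ∃ K : ℝ, 0 < K ∧
    ∀ {W : Type} [NormedAddCommGroup W] [NormedSpace ℝ W] [FiniteDimensional ℝ W],
    Module.finrank ℝ W = 4 → ∀ S P : Set W, S.Finite → affineSpan ℝ S = ⊤ → P = convexHull ℝ S →
    ∀ l : W →ₗ[ℝ] ℝ, l ≠ 0 → ∀ T : Finset ℝ, (∀ v ∈ P.extremePoints ℝ, l v ∈ T) →
    ∀ n : ℕ, (P.extremePoints ℝ).encard = n →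
    ∃ N : ℕ, {F : Set W | IsExposed ℝ P F ∧ Module.finrank ℝ (vectorSpan ℝ F) = 3 ∧
        (F.extremePoints ℝ).encard ≠ 4}.encard = N ∧
      (N : ℝ) ≤ K * (T.card : ℝ) ^ (3 / 2 : ℝ) * (n : ℝ) ^ (3 / 2 : ℝ) :=
  bound Closed.total

end KPX
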