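import Pool.Agent.KPX.MainP
import Pool.Agent.KPX.TotalX
import Pool.Agent.KPX.Closed

/-!
# Vertices on `k` parallel hyperplanes: the number of pairs of a facet and a vertex of it

The weighted form of `StmtTotalX`: the sum of the numbers of vertices of the facets with at least five
vertices is at most `K k^(3/2) n^(3/2)`.
-/

set_option autoImplicit false

namespace KPX

open TPH KPH

open Classical in
/-- The vertices of a facet. -/
noncomputable def vt (V : Finset (E × ℝ)) (u : E) (s q : ℝ) : Finset (E × ℝ) :=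
  V.filter (fun v => Tr.val u s v = q)

/-- **StmtTotalP.** The weighted form of `StmtTotalX`. -/
def StmtTotalP : Prop := ∃ K : ℝ, 0 < K ∧ ∀ (ι : Type) (V : Finset (E × ℝ)) (G : Finset ι) (u : ι → E)
  (s q : ι → ℝ), Tr.Data V G u s q → ∀ T : Finset ℝ, (∀ v ∈ V, v.2 ∈ T) →
  (∑ g ∈ G, ((vt V (u g) (s g) (q g)).card : ℝ)) ≤
    K * (T.card : ℝ) ^ (3 / 2 : ℝ) * (V.card : ℝ) ^ (3 / 2 : ℝ)

namespace MTotalP

open MTotalX

theorem mem_vt {V : Finset (E × ℝ)} {u : E} {s q : ℝ} {v : E × ℝ} :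
    v ∈ vt V u s q ↔ v ∈ V ∧ Tr.val u s v = q := by
  classical
  simp [vt]

open Classical in
/-- Double counting. -/
theorem swap {ι : Type} (G : Finset ι) (V : Finset (E × ℝ)) (R : ι → E × ℝ → Prop) :
    (∑ g ∈ G, (V.filter (fun v => R g v)).card) = ∑ v ∈ V, (G.filter (fun g => R g v)).card := by
  simp only [Finset.card_filter]
  exact Finset.sum_comm

/-- Facets parallel to the layers. -/
theorem zeroP {ι : Type} {V : Finset (E × ℝ)} {G : Finset ι} {u : ι → E} {s q : ι → ℝ}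
    (D : Tr.Data V G u s q) (S : Finset ι) (hS : S ⊆ G) (hu : ∀ g ∈ S, u g = 0) :
    ∑ g ∈ S, (vt V (u g) (s g) (q g)).card ≤ V.card := by
  classical
  rw [← Finset.card_biUnion]
  · refine Finset.card_le_card (Finset.biUnion_subset.2 fun g _ v hv => (mem_vt.1 hv).1)
  · intro g hg g' hg' hne
    rw [Function.onFun, Finset.disjoint_left]
    intro v hv hv'
    obtain ⟨hvV, h1⟩ := mem_vt.1 hv
    obtain ⟨-, h2⟩ := mem_vt.1 hv'
    apply hne
    have hval : ∀ (s' : ℝ) (w : E × ℝ), Tr.val 0 s' w = s' * w.2 := by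
      intro s' w
      simp [Tr.val, ip]
    refine D.inj g (hS hg) g' (hS hg') (fun w _ hw => ?_)
    rw [hu g hg, hval] at h1 hw
    rw [hu g' hg', hval] at h2 ⊢
    have h3 := D.nz g (hS hg) (hu g hg)
    have h4 : w.2 = v.2 := mul_left_cancel₀ h3 (hw.trans h1.symm)
    rw [h4, h2]

open Tr in
/-- Facets with at least three vertices in a layer, weighted. -/
theorem threeP {ι : Type} {V : Finset (E × ℝ)} {G : Finset ι} {u : ι → E} {s q : ι → ℝ}
    (D : Data V G u s q) (hEL : StmtEdgeLin) {t k : ℝ} (hk : 0 < k) (S : Finset ι)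
    (hS : S ⊆ G) (hu : ∀ g ∈ S, u g ≠ 0) (h3 : ∀ g ∈ S, 3 ≤ (zer V t (u g) (s g) (q g)).card) :
    ∑ g ∈ S, (zer V t (u g) (s g) (q g)).card ≤ 12 * (lay V t).card := by
  classical
  have hne : ∀ g ∈ S, (zer V t (u g) (s g) (q g)).Nonempty := by
    intro g hg
    rw [← Finset.card_pos]
    have := h3 g hg
    omega
  have hcard : ∀ g ∈ S, (zer V t (u g) (s g) (q g)).card = (Mx (img V t k) (u g)).card := by
    intro g hg
    rw [card_Mx hk (D.nn g (hS hg)) (hne g hg)]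
  have hmaps : ∀ g ∈ S, Mx (img V t k) (u g) ∈ Faces (img V t k) := by
    intro g hg
    rw [mem_Faces]
    refine ⟨?_, u g, hu g hg, rfl⟩
    rw [← hcard g hg]
    exact h3 g hg
  have hfib : ∀ F ∈ Faces (img V t k), (S.filter (fun g => Mx (img V t k) (u g) = F)).card ≤ 2 := by
    intro F hF
    rw [mem_Faces] at hF
    obtain ⟨a, b, c, ha, hb, hc, hab, hac, hbc⟩ := Finset.two_lt_card_iff.1 (by omega : 2 < F.card)
    obtain ⟨w, -, hw⟩ := hF.2
    have hsub : F ⊆ img V t k := by rw [← hw]; exact Mx_subset _ _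
    obtain ⟨x, hx, rfl⟩ := mem_img.1 (hsub ha)
    obtain ⟨y, hy, rfl⟩ := mem_img.1 (hsub hb)
    obtain ⟨z, hz, rfl⟩ := mem_img.1 (hsub hc)
    refine D.two x (mem_lay.1 hx).1 y (mem_lay.1 hy).1 z (mem_lay.1 hz).1 ?_ ?_ ?_ _
      ((Finset.filter_subset _ _).trans hS) ?_
    · rintro rfl; exact hab rfl
    · rintro rfl; exact hac rfl
    · rintro rfl; exact hbc rfl
    · intro g hg
      rw [Finset.mem_filter] at hg
      have hnn := D.nn g (hS hg.1)
      have hn := hne g hg.1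
      refine ⟨?_, ?_, ?_⟩
      · rw [← mem_Mx_img hk hnn hn hx, hg.2]; exact ha
      · rw [← mem_Mx_img hk hnn hn hy, hg.2]; exact hb
      · rw [← mem_Mx_img hk hnn hn hz, hg.2]; exact hc
  have h2 := (hEL (img V t k) (convPos_img hk D.exp)).2.1
  rw [card_img hk] at h2
  calc ∑ g ∈ S, (zer V t (u g) (s g) (q g)).card
      = ∑ g ∈ S, (Mx (img V t k) (u g)).card := Finset.sum_congr rfl hcard
    _ = ∑ F ∈ Faces (img V t k), ∑ g ∈ S.filter (fun g => Mx (img V t k) (u g) = F),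
          (Mx (img V t k) (u g)).card := (Finset.sum_fiberwise_of_maps_to hmaps _).symm
    _ = ∑ F ∈ Faces (img V t k), ∑ g ∈ S.filter (fun g => Mx (img V t k) (u g) = F), F.card := by
        refine Finset.sum_congr rfl fun F _ => Finset.sum_congr rfl fun g hg => ?_
        rw [(Finset.mem_filter.1 hg).2]
    _ ≤ ∑ F ∈ Faces (img V t k), 2 * F.card := by
        refine Finset.sum_le_sum fun F hF => ?_
        rw [Finset.sum_const, smul_eq_mul]
        exact Nat.mul_le_mul_right _ (hfib F hF)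
    _ = 2 * ∑ F ∈ Faces (img V t k), F.card := by rw [Finset.mul_sum]
    _ ≤ 12 * (lay V t).card := by omega

open Classical in
/-- The vertices of a facet with at most one vertex of the facet beyond in the direction `σ` and at most two
in their layer. -/
noncomputable def Dd (V : Finset (E × ℝ)) (σ : ℝ) (u : E) (s q : ℝ) : Finset (E × ℝ) :=
  (vt V u s q).filter (fun v => (Zr V u s q v.2).card ≤ 2 ∧
    ((vt V u s q).filter (fun v' => 0 < σ * (v'.2 - v.2))).card ≤ 1)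

open Classical in
theorem card_Dd (V : Finset (E × ℝ)) {σ : ℝ} (hσ : σ ≠ 0) (u : E) (s q : ℝ) :
    (Dd V σ u s q).card ≤ 3 := by
  rcases (Dd V σ u s q).eq_empty_or_nonempty with h | h
  · rw [h]
    simp
  obtain ⟨w, hw, hmin⟩ := Finset.exists_min_image (Dd V σ u s q) (fun v => σ * v.2) h
  have hw' := Finset.mem_filter.1 hw
  have hsub : Dd V σ u s q ⊆ Zr V u s q w.2 ∪
      (vt V u s q).filter (fun v' => 0 < σ * (v'.2 - w.2)) := by
    intro v hv
    obtain ⟨h1, h2⟩ := mem_vt.1 (Finset.mem_filter.1 hv).1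
    have h3 := hmin v hv
    rcases eq_or_ne v.2 w.2 with h4 | h4
    · exact Finset.mem_union_left _ (Tr.mem_zer.2 ⟨h1, h4, h2⟩)
    · refine Finset.mem_union_right _ (Finset.mem_filter.2 ⟨(Finset.mem_filter.1 hv).1, ?_⟩)
      have h5 : σ * (v.2 - w.2) ≠ 0 := mul_ne_zero hσ (sub_ne_zero.2 h4)
      have h6 : 0 ≤ σ * (v.2 - w.2) := by
        have : σ * (v.2 - w.2) = σ * v.2 - σ * w.2 := by ring
        rw [this]
        exact sub_nonneg.2 h3
      exact lt_of_le_of_ne h6 (Ne.symm h5)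
  have h1 := Finset.card_le_card hsub
  have h2 := h1.trans (Finset.card_union_le _ _)
  have h3 := hw'.2.1
  have h4 := hw'.2.2
  omega

/-- The condition for the vertices of a facet of the third kind. -/
def IsC (V : Finset (E × ℝ)) (u : E) (s q : ℝ) (c : E × ℝ) : Prop :=
  Zr V u s q c.2 = {c} ∧
    ∀ σ : ℝ, σ = 1 ∨ σ = -1 → ∃ z ∈ sd V σ c, ∃ z' ∈ sd V σ c, z ≠ z' ∧
      Tr.val u s z = q ∧ Tr.val u s z' = q

open Classical in
/-- The vertices of a facet of the third kind. -/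
noncomputable def Cc (V : Finset (E × ℝ)) (u : E) (s q : ℝ) : Finset (E × ℝ) :=
  V.filter (fun c => IsC V u s q c)

open Classical in
/-- The vertices of a facet, by kind. -/
theorem cover {V : Finset (E × ℝ)} {T : Finset ℝ} (hT : ∀ v ∈ V, v.2 ∈ T) (u : E) (s q : ℝ) :
    vt V u s q ⊆
      (T.filter (fun t => 3 ≤ (Zr V u s q t).card)).biUnion (fun t => Zr V u s q t) ∪
      ((T ×ˢ (T ×ˢ T)).filter (fun p => Btw p.1 p.2.1 p.2.2 ∧ (Zr V u s q p.2.1).card = 2 ∧
        (Zr V u s q p.1).Nonempty ∧ (Zr V u s q p.2.2).Nonempty)).biUnion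
          (fun p => Zr V u s q p.2.1) ∪
      Cc V u s q ∪ (Dd V 1 u s q ∪ Dd V (-1) u s q) := by
  intro v hv
  obtain ⟨hvV, hvq⟩ := mem_vt.1 hv
  have hvZ : v ∈ Zr V u s q v.2 := Tr.mem_zer.2 ⟨hvV, rfl, hvq⟩
  have hpos : 1 ≤ (Zr V u s q v.2).card := Finset.card_pos.2 ⟨v, hvZ⟩
  by_cases h3 : 3 ≤ (Zr V u s q v.2).card
  · exact Finset.mem_union_left _ (Finset.mem_union_left _ (Finset.mem_union_left _
      (Finset.mem_biUnion.2 ⟨v.2, Finset.mem_filter.2 ⟨hT v hvV, h3⟩, hvZ⟩)))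
  by_cases hD1 : v ∈ Dd V 1 u s q
  · exact Finset.mem_union_right _ (Finset.mem_union_left _ hD1)
  by_cases hD2 : v ∈ Dd V (-1) u s q
  · exact Finset.mem_union_right _ (Finset.mem_union_right _ hD2)
  have hle : (Zr V u s q v.2).card ≤ 2 := by omega
  have key : ∀ σ : ℝ, σ = 1 ∨ σ = -1 → ∃ z ∈ sd V σ v, ∃ z' ∈ sd V σ v, z ≠ z' ∧
      Tr.val u s z = q ∧ Tr.val u s z' = q := by
    intro σ hσ
    have h1 : 1 < ((vt V u s q).filter (fun v' => 0 < σ * (v'.2 - v.2))).card := by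
      by_contra hc
      have h2 : v ∈ Dd V σ u s q := Finset.mem_filter.2 ⟨hv, hle, by omega⟩
      rcases hσ with rfl | rfl
      · exact hD1 h2
      · exact hD2 h2
    obtain ⟨z, hz, z', hz', hne⟩ := Finset.one_lt_card.1 h1
    obtain ⟨a1, a2⟩ := Finset.mem_filter.1 hz
    obtain ⟨b1, b2⟩ := Finset.mem_filter.1 hz'
    obtain ⟨a3, a4⟩ := mem_vt.1 a1
    obtain ⟨b3, b4⟩ := mem_vt.1 b1
    exact ⟨z, Finset.mem_filter.2 ⟨a3, a2⟩, z', Finset.mem_filter.2 ⟨b3, b2⟩, hne, a4, b4⟩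
  by_cases h1 : (Zr V u s q v.2).card = 1
  · obtain ⟨a, ha⟩ := Finset.card_eq_one.1 h1
    have hva : v = a := by
      rw [ha] at hvZ
      exact Finset.mem_singleton.1 hvZ
    refine Finset.mem_union_left _ (Finset.mem_union_right _ (Finset.mem_filter.2 ⟨hvV, ?_, key⟩))
    rw [ha, hva]
  · obtain ⟨z, hz, -, -, -, hzq, -⟩ := key (-1) (Or.inr rfl)
    obtain ⟨w, hw, -, -, -, hwq, -⟩ := key 1 (Or.inl rfl)
    obtain ⟨z1, z2⟩ := Finset.mem_filter.1 hz
    obtain ⟨w1, w2⟩ := Finset.mem_filter.1 hw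
    refine Finset.mem_union_left _ (Finset.mem_union_left _ (Finset.mem_union_right _
      (Finset.mem_biUnion.2 ⟨(z.2, v.2, w.2), Finset.mem_filter.2 ⟨?_, Or.inl ⟨?_, ?_⟩, ?_, ?_, ?_⟩,
        hvZ⟩)))
    · exact Finset.mem_product.2 ⟨hT z z1, Finset.mem_product.2 ⟨hT v hvV, hT w w1⟩⟩
    · show z.2 < v.2
      linarith
    · show v.2 < w.2
      linarith
    · show (Zr V u s q v.2).card = 2
      omega
    · exact ⟨z, Tr.mem_zer.2 ⟨z1, rfl, hzq⟩⟩
    · exact ⟨w, Tr.mem_zer.2 ⟨w1, rfl, hwq⟩⟩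

open Classical in
theorem sum_three {ι : Type} {V : Finset (E × ℝ)} {G : Finset ι} {u : ι → E} {s q : ι → ℝ}
    (D : Tr.Data V G u s q) (hEL : TPH.StmtEdgeLin) (S : Finset ι) (hS : S ⊆ G)
    (hu : ∀ g ∈ S, u g ≠ 0) (T : Finset ℝ) :
    ∑ g ∈ S, ((T.filter (fun t => 3 ≤ (Zr V (u g) (s g) (q g) t).card)).biUnion
      (fun t => Zr V (u g) (s g) (q g) t)).card ≤ ∑ t ∈ T, 12 * (Tr.lay V t).card := by
  calc ∑ g ∈ S, ((T.filter (fun t => 3 ≤ (Zr V (u g) (s g) (q g) t).card)).biUnion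
      (fun t => Zr V (u g) (s g) (q g) t)).card
      ≤ ∑ g ∈ S, ∑ t ∈ T, if 3 ≤ (Zr V (u g) (s g) (q g) t).card then
          (Zr V (u g) (s g) (q g) t).card else 0 := by
        refine Finset.sum_le_sum fun g _ => ?_
        rw [← Finset.sum_filter]
        exact Finset.card_biUnion_le
    _ = ∑ t ∈ T, ∑ g ∈ S, if 3 ≤ (Zr V (u g) (s g) (q g) t).card then
          (Zr V (u g) (s g) (q g) t).card else 0 := Finset.sum_comm
    _ ≤ ∑ t ∈ T, 12 * (Tr.lay V t).card := by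
        refine Finset.sum_le_sum fun t _ => ?_
        rw [← Finset.sum_filter]
        exact threeP D hEL one_pos (S.filter (fun g => 3 ≤ (Zr V (u g) (s g) (q g) t).card))
          ((Finset.filter_subset _ _).trans hS) (fun g hg => hu g (Finset.mem_filter.1 hg).1)
          (fun g hg => (Finset.mem_filter.1 hg).2)

open Classical in
theorem sum_mid {ι : Type} {V : Finset (E × ℝ)} {G : Finset ι} {u : ι → E} {s q : ι → ℝ}
    (D : Tr.Data V G u s q) (hMid : KPH.StmtMidD) (S : Finset ι) (hS : S ⊆ G) (T : Finset ℝ) :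
    ∑ g ∈ S, (((T ×ˢ (T ×ˢ T)).filter (fun p => Btw p.1 p.2.1 p.2.2 ∧
        (Zr V (u g) (s g) (q g) p.2.1).card = 2 ∧
        (Zr V (u g) (s g) (q g) p.1).Nonempty ∧ (Zr V (u g) (s g) (q g) p.2.2).Nonempty)).biUnion
          (fun p => Zr V (u g) (s g) (q g) p.2.1)).card ≤
      ∑ p ∈ T ×ˢ (T ×ˢ T), 2 * (24 * (Tr.lay V p.2.1).card + 2 * (Tr.lay V p.1).card) := by
  calc ∑ g ∈ S, (((T ×ˢ (T ×ˢ T)).filter (fun p => Btw p.1 p.2.1 p.2.2 ∧
        (Zr V (u g) (s g) (q g) p.2.1).card = 2 ∧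
        (Zr V (u g) (s g) (q g) p.1).Nonempty ∧ (Zr V (u g) (s g) (q g) p.2.2).Nonempty)).biUnion
          (fun p => Zr V (u g) (s g) (q g) p.2.1)).card
      ≤ ∑ g ∈ S, ∑ p ∈ T ×ˢ (T ×ˢ T), if (Btw p.1 p.2.1 p.2.2 ∧
        (Zr V (u g) (s g) (q g) p.2.1).card = 2 ∧
        (Zr V (u g) (s g) (q g) p.1).Nonempty ∧ (Zr V (u g) (s g) (q g) p.2.2).Nonempty) then
          2 else 0 := by
        refine Finset.sum_le_sum fun g _ => ?_
        rw [← Finset.sum_filter]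
        refine Finset.card_biUnion_le.trans (Finset.sum_le_sum fun p hp => ?_)
        rw [(Finset.mem_filter.1 hp).2.2.1]
    _ = ∑ p ∈ T ×ˢ (T ×ˢ T), ∑ g ∈ S, if (Btw p.1 p.2.1 p.2.2 ∧
        (Zr V (u g) (s g) (q g) p.2.1).card = 2 ∧
        (Zr V (u g) (s g) (q g) p.1).Nonempty ∧ (Zr V (u g) (s g) (q g) p.2.2).Nonempty) then
          2 else 0 := Finset.sum_comm
    _ ≤ ∑ p ∈ T ×ˢ (T ×ˢ T), 2 * (24 * (Tr.lay V p.2.1).card + 2 * (Tr.lay V p.1).card) := by
        refine Finset.sum_le_sum fun p _ => ?_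
        rw [← Finset.sum_filter, Finset.sum_const, smul_eq_mul, mul_comm]
        refine Nat.mul_le_mul_left _ ?_
        by_cases hB : Btw p.1 p.2.1 p.2.2
        · exact hMid _ V G u s q D p.1 p.2.1 p.2.2 _ hB ((Finset.filter_subset _ _).trans hS)
            (fun g hg => (Finset.mem_filter.1 hg).2.2)
        · rw [Finset.filter_eq_empty_iff.2 (fun g _ h => hB h.1), Finset.card_empty]
          exact Nat.zero_le _

theorem sum3p (T : Finset ℝ) (x : ℝ → ℝ) :
    ∑ p ∈ T ×ˢ (T ×ˢ T), 2 * (24 * x p.2.1 + 2 * x p.1) =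
    52 * (T.card : ℝ) ^ 2 * ∑ t ∈ T, x t := by
  rw [Finset.sum_product]
  simp only [Finset.sum_product, ← Finset.mul_sum, Finset.sum_add_distrib, Finset.sum_const,
    nsmul_eq_mul, Finset.card_product, Nat.cast_mul]
  ring

/-- The bound with the set of the heights which occur. -/
theorem boundP (hEL : TPH.StmtEdgeLin) (hMid : KPH.StmtMidD) (hPart : StmtPart)
    {K₀ : ℝ} (hK₀ : 0 < K₀)
    (hMain : ∀ (ι : Type) (V : Finset (E × ℝ)) (G : Finset ι) (u : ι → E)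
      (s q : ι → ℝ), Tr.Data V G u s q → ∀ (S : E × ℝ → Finset ι), (∀ c ∈ V, S c ⊆ G) →
      (∀ c ∈ V, ∀ g ∈ S c, u g ≠ 0 ∧ Zr V (u g) (s g) (q g) c.2 = {c} ∧
        ∀ σ : ℝ, σ = 1 ∨ σ = -1 → ∃ z ∈ sd V σ c, ∃ z' ∈ sd V σ c, z ≠ z' ∧
          Tr.val (u g) (s g) z = q g ∧ Tr.val (u g) (s g) z' = q g) →
      ∀ (m : ℕ) (J : Finset (ℝ × ℕ)) (cl : E × ℝ → ℝ × ℕ), 0 < m →
      (∀ v ∈ V, cl v ∈ J ∧ (cl v).1 = v.2) →
      (∀ j : ℝ × ℕ,
        (@Finset.filter (E × ℝ) (fun v => cl v = j) (Classical.decPred _) V).card ≤ m) →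
      (∑ c ∈ V, ((S c).card : ℝ)) ≤ K₀ * (J.card : ℝ) ^ 3 * (m : ℝ) ^ (3 / 2 : ℝ))
    {ι : Type} {V : Finset (E × ℝ)} {G : Finset ι} {u : ι → E} {s q : ι → ℝ}
    (D : Tr.Data V G u s q) (T : Finset ℝ) (hT : ∀ v ∈ V, v.2 ∈ T) (hT1 : 0 < T.card)
    (hTn : T.card ≤ V.card) :
    (∑ g ∈ G, ((vt V (u g) (s g) (q g)).card : ℝ)) ≤
      (65 + 32 * K₀) * ((T.card : ℝ) ^ (3 / 2 : ℝ) * (V.card : ℝ) ^ (3 / 2 : ℝ)) +
      6 * G.card := by
  classical
  have hn1' : 0 < V.card := lt_of_lt_of_le hT1 hTn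
  have hn1 : (1 : ℝ) ≤ V.card := by exact_mod_cast hn1'
  have hk1 : (1 : ℝ) ≤ T.card := by exact_mod_cast hT1
  have hkn : (T.card : ℝ) ≤ V.card := by exact_mod_cast hTn
  have hsum := sum_lay hT
  set G1 := G.filter (fun g => u g ≠ 0) with hG1
  -- the facets parallel to the layers
  have b0 : ((∑ g ∈ G.filter (fun g => u g = 0), (vt V (u g) (s g) (q g)).card : ℕ) : ℝ) ≤
      V.card := by
    exact_mod_cast zeroP D _ (Finset.filter_subset _ _) (fun g hg => (Finset.mem_filter.1 hg).2)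
  have hsplit : ∑ g ∈ G, (vt V (u g) (s g) (q g)).card =
      ∑ g ∈ G.filter (fun g => u g = 0), (vt V (u g) (s g) (q g)).card +
      ∑ g ∈ G1, (vt V (u g) (s g) (q g)).card :=
    (Finset.sum_filter_add_sum_filter_not G (fun g => u g = 0) _).symm
  -- the other facets
  have hle : ∑ g ∈ G1, (vt V (u g) (s g) (q g)).card ≤
      ∑ t ∈ T, 12 * (Tr.lay V t).card +
      ∑ p ∈ T ×ˢ (T ×ˢ T), 2 * (24 * (Tr.lay V p.2.1).card + 2 * (Tr.lay V p.1).card) +
      ∑ c ∈ V, (G1.filter (fun g => IsC V (u g) (s g) (q g) c)).card +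
      6 * G.card := by
    have h1 := sum_three D hEL G1 (Finset.filter_subset _ _)
      (fun g hg => (Finset.mem_filter.1 hg).2) T
    have h2 := sum_mid D hMid G1 (Finset.filter_subset _ _) T
    have h3 := swap G1 V (fun g c => IsC V (u g) (s g) (q g) c)
    have h4 : ∑ g ∈ G1, 6 ≤ 6 * G.card := by
      rw [Finset.sum_const, smul_eq_mul, mul_comm]
      exact Nat.mul_le_mul_left _ (Finset.card_le_card (Finset.filter_subset _ _))
    rw [← h3]
    refine le_trans ?_ (add_le_add (add_le_add (add_le_add h1 h2) le_rfl) h4)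
    rw [← Finset.sum_add_distrib, ← Finset.sum_add_distrib, ← Finset.sum_add_distrib]
    refine Finset.sum_le_sum fun g _ => ?_
    have c1 := Finset.card_le_card (cover hT (u g) (s g) (q g))
    have c2 := c1.trans (Finset.card_union_le _ _)
    have c3 := c2.trans (Nat.add_le_add_right (Finset.card_union_le _ _) _)
    have c4 := c3.trans (Nat.add_le_add_right (Nat.add_le_add_right
      (Finset.card_union_le _ _) _) _)
    have d1 := card_Dd V (one_ne_zero : (1 : ℝ) ≠ 0) (u g) (s g) (q g)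
    have d2 := card_Dd V (neg_ne_zero.2 one_ne_zero : (-1 : ℝ) ≠ 0) (u g) (s g) (q g)
    have d3 := Finset.card_union_le (Dd V 1 (u g) (s g) (q g)) (Dd V (-1) (u g) (s g) (q g))
    refine c4.trans (Nat.add_le_add_left ?_ _)
    omega
  have hleR : ((∑ g ∈ G1, (vt V (u g) (s g) (q g)).card : ℕ) : ℝ) ≤
      ∑ t ∈ T, 12 * ((Tr.lay V t).card : ℝ) +
      ∑ p ∈ T ×ˢ (T ×ˢ T), 2 * (24 * ((Tr.lay V p.2.1).card : ℝ) + 2 * ((Tr.lay V p.1).card : ℝ)) +
      ∑ c ∈ V, ((G1.filter (fun g => IsC V (u g) (s g) (q g) c)).card : ℝ) +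
      6 * G.card := by exact_mod_cast hle
  rw [← Finset.mul_sum, sum3p T (fun t => ((Tr.lay V t).card : ℝ)), hsum] at hleR
  set n : ℝ := (V.card : ℝ) with hn
  set k : ℝ := (T.card : ℝ) with hk
  have bc : (∑ c ∈ V, ((G1.filter (fun g => IsC V (u g) (s g) (q g) c)).card : ℝ)) ≤
      32 * K₀ * (k ^ (3 / 2 : ℝ) * n ^ (3 / 2 : ℝ)) := by
    set m : ℕ := V.card / T.card + 1 with hm
    have hm0 : 0 < m := Nat.succ_pos _
    obtain ⟨J, cl, hcl, hfib, hJ⟩ := hPart V T m hT hm0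
    have h1 := hMain ι V G u s q D (fun c => G1.filter (fun g => IsC V (u g) (s g) (q g) c))
      (fun c _ => (Finset.filter_subset _ _).trans (Finset.filter_subset _ _))
      (fun c _ g hg => ⟨(Finset.mem_filter.1 (Finset.mem_filter.1 hg).1).2,
        (Finset.mem_filter.1 hg).2⟩) m J cl hm0 hcl hfib
    have hnm : V.card < m * T.card := by
      have := Nat.lt_div_mul_add (a := V.card) hT1
      rw [hm, add_mul, one_mul]
      exact this
    have hJ2 : J.card ≤ 2 * T.card := by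
      by_contra hc
      have h3 : m * (2 * T.card) < m * J.card := Nat.mul_lt_mul_of_pos_left (by omega) hm0
      have h4 : m * (2 * T.card) = m * T.card + m * T.card := by ring
      omega
    have hmk : m * T.card ≤ 2 * V.card := by
      have := Nat.div_mul_le_self V.card T.card
      rw [hm, add_mul, one_mul]
      omega
    have hJ2' : (J.card : ℝ) ≤ 2 * k := by
      have : (J.card : ℝ) ≤ 2 * (T.card : ℝ) := by exact_mod_cast hJ2
      exact this
    have hmk' : (m : ℝ) * k ≤ 2 * n := by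
      have : (m : ℝ) * (T.card : ℝ) ≤ 2 * (V.card : ℝ) := by exact_mod_cast hmk
      exact this
    have hm0' : (0 : ℝ) < m := by exact_mod_cast hm0
    have h2 := calc_main (by linarith : 0 < k) (by linarith : 0 < n) hm0' (Nat.cast_nonneg J.card)
      hJ2' hmk'
    have h5 := mul_le_mul_of_nonneg_left h2 hK₀.le
    refine h1.trans ?_
    calc K₀ * (J.card : ℝ) ^ 3 * (m : ℝ) ^ (3 / 2 : ℝ)
        = K₀ * ((J.card : ℝ) ^ 3 * (m : ℝ) ^ (3 / 2 : ℝ)) := by ring
      _ ≤ K₀ * (32 * (k ^ (3 / 2 : ℝ) * n ^ (3 / 2 : ℝ))) := h5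
      _ = 32 * K₀ * (k ^ (3 / 2 : ℝ) * n ^ (3 / 2 : ℝ)) := by ring
  have hS1 : 1 ≤ √k := Real.one_le_sqrt.2 hk1
  have hR1 : 1 ≤ √n := Real.one_le_sqrt.2 hn1
  have hSR : √k ≤ √n := Real.sqrt_le_sqrt hkn
  have hs : √k * √k = k := Real.mul_self_sqrt (by linarith)
  have hk0 : 0 ≤ k := by linarith
  have hn0 : 0 ≤ n := by linarith
  set P : ℝ := k ^ (3 / 2 : ℝ) * n ^ (3 / 2 : ℝ) with hP
  have hP' : P = (k * √k) * (n * √n) := by
    rw [hP, pow_eq (by linarith : 0 < k), pow_eq (by linarith : 0 < n)]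
  have hkS : 1 ≤ k * √k := one_le_mul_of_one_le_of_one_le hk1 hS1
  have e1 : n ≤ P := by
    rw [hP']
    exact (le_mul_of_one_le_right hn0 hR1).trans (le_mul_of_one_le_left (by positivity) hkS)
  have e2 : k ^ 2 * n ≤ P := by
    rw [hP']
    calc k ^ 2 * n = (k * √k) * (n * √k) := by
          rw [show (k * √k) * (n * √k) = k * (√k * √k) * n by ring, hs]; ring
      _ ≤ (k * √k) * (n * √n) := by
          refine mul_le_mul_of_nonneg_left ?_ (by positivity)
          exact mul_le_mul_of_nonneg_left hSR hn0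
  have htot : (∑ g ∈ G, ((vt V (u g) (s g) (q g)).card : ℝ)) =
      ((∑ g ∈ G.filter (fun g => u g = 0), (vt V (u g) (s g) (q g)).card : ℕ) : ℝ) +
      ((∑ g ∈ G1, (vt V (u g) (s g) (q g)).card : ℕ) : ℝ) := by
    exact_mod_cast hsplit
  rw [htot]
  calc _ ≤ n + (12 * n + 52 * k ^ 2 * n + 32 * K₀ * P + 6 * G.card) := by
        refine add_le_add b0 (hleR.trans ?_)
        linarith
    _ ≤ (65 + 32 * K₀) * P + 6 * G.card := by nlinarith

end MTotalP

open MTotalP in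
theorem t_TotalP (hEL : TPH.StmtEdgeLin) (hMid : KPH.StmtMidD) (hPart : StmtPart)
    (hMain : StmtMainP) (hTot : StmtTotalX) : StmtTotalP := by
  classical
  obtain ⟨K₀, hK₀, hMain'⟩ := hMain
  obtain ⟨K₁, hK₁, hTot'⟩ := hTot
  refine ⟨65 + 32 * K₀ + 6 * K₁, by positivity, ?_⟩
  intro ι V G u s q D T hT
  rcases G.eq_empty_or_nonempty with hG | ⟨g0, hg0⟩
  · rw [hG, Finset.sum_empty]
    positivity
  have hVne : V.Nonempty := by
    obtain ⟨Z, hZ, hZV⟩ := D.five g0 hg0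
    obtain ⟨v, hv⟩ := Finset.card_pos.1 (by omega : 0 < Z.card)
    exact ⟨v, (hZV v hv).1⟩
  have hTo := hTot' ι V G u s q D (V.image Prod.snd)
    (fun v hv => Finset.mem_image_of_mem _ hv)
  have h1 := boundP hEL hMid hPart hK₀ hMain' D (V.image Prod.snd)
    (fun v hv => Finset.mem_image_of_mem _ hv) (Finset.card_pos.2 (hVne.image _))
    Finset.card_image_le
  have h2 : ((V.image Prod.snd).card : ℝ) ≤ T.card := by
    have : (V.image Prod.snd).card ≤ T.card := by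
      refine Finset.card_le_card ?_
      intro t ht
      obtain ⟨v, hv, rfl⟩ := Finset.mem_image.1 ht
      exact hT v hv
    exact_mod_cast this
  have h3 : ((V.image Prod.snd).card : ℝ) ^ (3 / 2 : ℝ) ≤ (T.card : ℝ) ^ (3 / 2 : ℝ) :=
    Real.rpow_le_rpow (Nat.cast_nonneg _) h2 (by norm_num)
  have h4 : 0 ≤ (V.card : ℝ) ^ (3 / 2 : ℝ) := Real.rpow_nonneg (Nat.cast_nonneg _) _
  calc (∑ g ∈ G, ((vt V (u g) (s g) (q g)).card : ℝ)) ≤ (65 + 32 * K₀) *
        (((V.image Prod.snd).card : ℝ) ^ (3 / 2 : ℝ) * (V.card : ℝ) ^ (3 / 2 : ℝ)) +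
        6 * G.card := h1
    _ ≤ (65 + 32 * K₀ + 6 * K₁) *
        (((V.image Prod.snd).card : ℝ) ^ (3 / 2 : ℝ) * (V.card : ℝ) ^ (3 / 2 : ℝ)) := by
        nlinarith
    _ ≤ (65 + 32 * K₀ + 6 * K₁) * ((T.card : ℝ) ^ (3 / 2 : ℝ) * (V.card : ℝ) ^ (3 / 2 : ℝ)) := by
        refine mul_le_mul_of_nonneg_left ?_ (by positivity)
        exact mul_le_mul_of_nonneg_right h3 h4
    _ = (65 + 32 * K₀ + 6 * K₁) * (T.card : ℝ) ^ (3 / 2 : ℝ) * (V.card : ℝ) ^ (3 / 2 : ℝ) := by ring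

namespace Closed

theorem c_t_MainP : StmtMainP := KPX.t_MainP KPH.Closed.c_t_Wd c_t_Assign c_t_Pair
theorem c_t_TotalP : StmtTotalP :=
  KPX.t_TotalP TPH.Closed.c_t_EdgeLin KPH.Closed.c_t_MidD c_t_Part c_t_MainP c_t_TotalX

/-- The weighted bound for facet data. -/
theorem totalP : StmtTotalP := c_t_TotalP

end Closed

end KPX
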