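import Pool.Agent.KPH.Stmts

/-!
# Vertices on `k` parallel hyperplanes: the bound `K k^(3/2) n^(3/2)`, statements

Every facet with at least five vertices which is not counted by easy arguments has a vertex `c` (the third
lowest) which is the only vertex in its layer, with at least two vertices strictly below and at least two
strictly above.  Give the facet to one lower vertex `x g` and one upper vertex `y g`, with bounded
multiplicity (possible as the graph of the lower neighbours of `c` is planar).  Cut the layers into classes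
of size about `n/k`; the facets given to one pair of classes are counted by the three layer theorem
(`StmtMultiAll` for one pair).

`pj σ c x` is the projection of `x` from `c` to the plane at distance one below (`σ = -1`) or above
(`σ = 1`) `c`.  For `val (u,s) c = q` we have
`q - val u s x = (σ * (x.2 - c.2)) * (-(σ * s) - ip (pj σ c x) u)`.
-/

set_option autoImplicit false

namespace KPX

open TPH KPH

open Classical in
/-- The vertices on the side `σ` of `c`. -/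
noncomputable def sd (V : Finset (E × ℝ)) (σ : ℝ) (c : E × ℝ) : Finset (E × ℝ) :=
  V.filter (fun x => 0 < σ * (x.2 - c.2))

/-- The projection from `c`. -/
noncomputable def pj (σ : ℝ) (c x : E × ℝ) : E := (σ * (x.2 - c.2))⁻¹ • (x.1 - c.1)

open Classical in
/-- The projections of the elements of `X`. -/
noncomputable def PJ (σ : ℝ) (c : E × ℝ) (X : Finset (E × ℝ)) : Finset E := X.image (pj σ c)

/-- **StmtDeg.** Orientation of a sparse graph.
PROOF. Induction on `X.card`, for all `S`.  If `X` is empty then so is `S`.  Otherwise let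
`d v = #{g ∈ S | p g = v ∨ p' g = v}`.  `∑_{v ∈ X} d v = 2 |S|` (every `g` is counted for the two different
elements `p g`, `p' g` of `X`; double counting, `Finset.sum_card_bipartiteAbove_eq_sum_card_bipartiteBelow`
or `Finset.sum_comm`), and `|S| ≤ D |X|` by the hypothesis for `X`.  So `d v ≤ 2 D` for some `v ∈ X`
(`Finset.exists_le_of_sum_le` or by contradiction).  Apply the induction hypothesis to `X.erase v` and
`S' = {g ∈ S | p g ≠ v ∧ p' g ≠ v}`, it gives `x'`; put `x g = v` if `p g = v ∨ p' g = v`, and `x g = x' g`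
otherwise.  The fibre of `v`: `d v` elements (for `g ∈ S'` we have `x' g ∈ {p g, p' g}`, so `x' g ≠ v`); the
fibre of `w ≠ v` is contained in the fibre of `x'`. -/
def StmtDeg : Prop := ∀ (ι β : Type) (D : ℕ) (X : Finset β) (S : Finset ι) (p p' : ι → β),
  (∀ g ∈ S, p g ∈ X ∧ p' g ∈ X ∧ p g ≠ p' g) →
  (∀ Y : Finset β, Y ⊆ X →
    (@Finset.filter ι (fun g => p g ∈ Y ∧ p' g ∈ Y) (Classical.decPred _) S).card ≤ D * Y.card) →
  ∃ x : ι → β, (∀ g ∈ S, x g = p g ∨ x g = p' g) ∧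
    ∀ v : β, (@Finset.filter ι (fun g => x g = v) (Classical.decPred _) S).card ≤ 2 * D

/-- **StmtMatch.** Greedy matching.
PROOF. Let `W` be a subset of `S` of maximal cardinality among those on which `x` and `y` are injective
(`Finset.exists_max_image` on `S.powerset.filter ..`, the empty set is one of them).  Every `g ∈ S` has
`x g = x w` or `y g = y w` for some `w ∈ W`: this is clear for `g ∈ W`; for `g ∉ W` otherwise `insert g W` would
be better.  So `S` is covered by the fibres, `|S| ≤ ∑_{w ∈ W} 2 M` (`Finset.card_biUnion_le`). -/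
def StmtMatch : Prop := ∀ (ι β : Type) (M : ℕ) (S : Finset ι) (x y : ι → β),
  (∀ v : β, (@Finset.filter ι (fun g => x g = v) (Classical.decPred _) S).card ≤ M) →
  (∀ v : β, (@Finset.filter ι (fun g => y g = v) (Classical.decPred _) S).card ≤ M) →
  ∃ W : Finset ι, W ⊆ S ∧ (∀ g ∈ W, ∀ g' ∈ W, x g = x g' → g = g') ∧
    (∀ g ∈ W, ∀ g' ∈ W, y g = y g' → g = g') ∧ S.card ≤ 2 * M * W.card

/-- **StmtExpTwo.** A set of at least two maximisers contains two exposed points.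
PROOF. `TPH.Closed.c_t_Generic` for `A` gives `φ` with `ip · φ` injective on `A`.  `M = Mx A u` has two
elements `p ≠ p'`.  Let `a` be the maximiser of `ip · φ` on `M` and `a'` that of `ip · (-φ)`
(`Finset.exists_max_image`), `Mx M φ = {a}`, `Mx M (-φ) = {a'}` by injectivity (`mem_Mx`); `TPH.Mx_pert A u φ`
gives `ε > 0` with `Mx A (u + ε φ) = Mx (Mx A u) φ`, the same for `-φ` (see the exact form of `Mx_pert` in
`Pool/Agent/TPH/Basic.lean`).  If `a = a'` then all elements of `M` have the same value (between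
`ip a' φ` and `ip a φ`), so `p = p'` by injectivity. -/
def StmtExpTwo : Prop := ∀ (A : Finset E) (u : E), 2 ≤ (Mx A u).card →
  ∃ a ∈ Mx A u, ∃ a' ∈ Mx A u, a ≠ a' ∧ (∃ w, Mx A w = {a}) ∧ ∃ w, Mx A w = {a'}

/-- **StmtPj.** The projection from `c`.
PROOF. (1) Injective: if `pj σ c x = pj σ c x'` with `k = σ (x.2 - c.2) > 0`, `k' = σ (x'.2 - c.2) > 0`, then
`k' • (x.1 - c.1) = k • (x'.1 - c.1)` and `k' * (x.2 - c.2) = k * (x'.2 - c.2)`.  If `k = k'` then `x = x'`
(`σ ≠ 0`).  If `k < k'` then `x = (1 - k/k') c + (k/k') x'`; with the exposing functional of `x`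
(`hexp`): `val x = (1 - k/k') val c + (k/k') val x' < val x` as `x' ≠ x`, `c ≠ x` (`val` is affine, unfold
`Tr.val`, `ip`), contradiction; if `k' < k` the same with `x, x'` exchanged.
(2) The identity in the header: `σ² = 1`, unfold `Tr.val`, `pj`, `ip`; with `k = σ (x.2 - c.2) ≠ 0`:
`k * ip (pj σ c x) u = ip (x.1 - c.1) u`, `k * (σ * s) = s * (x.2 - c.2)`. -/
def StmtPj : Prop := ∀ (V : Finset (E × ℝ)) (c : E × ℝ) (σ : ℝ), c ∈ V → σ * σ = 1 →
  (∀ v ∈ V, ∃ (u : E) (s : ℝ), ∀ v' ∈ V, v' ≠ v → Tr.val u s v' < Tr.val u s v) →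
  (∀ x ∈ sd V σ c, ∀ x' ∈ sd V σ c, pj σ c x = pj σ c x' → x = x') ∧
  ∀ (u : E) (s : ℝ) (x : E × ℝ), 0 < σ * (x.2 - c.2) →
    Tr.val u s c - Tr.val u s x = (σ * (x.2 - c.2)) * (-(σ * s) - ip (pj σ c x) u)

/-- **StmtPjMx.** The maximisers on the projected points.
PROOF. `StmtPj` (2): for `x ∈ sd V σ c`, `q = val u s c`, `val u s x ≤ q` gives `ip (pj σ c x) u ≤ -(σ s)`, and
there is equality iff `val u s x = q`.  So if `X` contains a point `x₀` with value `q` then the maximisers on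
`PJ σ c X` are the points with value `-(σ s)`, that is (`Finset.mem_image`) the images of the points of `X`
with value `q`. -/
def StmtPjMx : Prop := ∀ (V : Finset (E × ℝ)) (c : E × ℝ) (σ : ℝ), c ∈ V → σ * σ = 1 →
  (∀ v ∈ V, ∃ (u : E) (s : ℝ), ∀ v' ∈ V, v' ≠ v → Tr.val u s v' < Tr.val u s v) →
  ∀ (X : Finset (E × ℝ)), X ⊆ sd V σ c → ∀ (u : E) (s : ℝ),
  (∀ v ∈ V, Tr.val u s v ≤ Tr.val u s c) → (∃ x₀ ∈ X, Tr.val u s x₀ = Tr.val u s c) →
  ∀ x ∈ X, pj σ c x ∈ Mx (PJ σ c X) u ↔ Tr.val u s x = Tr.val u s c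

/-- **StmtSparse.** Few facets at `c` contain two given points of a set of exposed neighbours.
PROOF. `A = PJ σ c X` is in convex position: an element of `A` is `pj σ c x`, `x ∈ X`, the only maximiser on
`PJ σ c (sd V σ c)` of some `w`, so the only maximiser on the subset `A` (`mem_Mx`).  `|A| ≤ |X|`.  For `g ∈ S`
the two points `p g`, `p' g ∈ X` have different images (`hPj`) in `Mx A (u g)` (`hPjMx`), so
`Mx A (u g) ∈ Ed A ∪ Faces A` (`mem_Ed`, `mem_Faces`, `u g ≠ 0`); `|Ed A ∪ Faces A| ≤ 14 |A|`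
(`TPH.Closed.edge_lin`).  Every value `F` is taken at most twice: if it is taken, `F` has two different
elements `pj σ c x`, `pj σ c x'`, and all `g` in the fibre contain `x`, `x'` (`hPjMx`) and `c`;
`Data.two` (`x ≠ c` because of the heights).  `Finset.card_le_mul_card_image_of_maps_to`. -/
def StmtSparse : Prop := ∀ (ι : Type) (V : Finset (E × ℝ)) (G : Finset ι) (u : ι → E) (s q : ι → ℝ),
  Tr.Data V G u s q → ∀ (c : E × ℝ) (σ : ℝ), c ∈ V → σ * σ = 1 →
  ∀ (S : Finset ι) (p p' : ι → E × ℝ) (X : Finset (E × ℝ)), S ⊆ G → X ⊆ sd V σ c →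
  (∀ x ∈ X, ∃ w, Mx (PJ σ c (sd V σ c)) w = {pj σ c x}) →
  (∀ g ∈ S, u g ≠ 0 ∧ Tr.val (u g) (s g) c = q g ∧ p g ∈ X ∧ p' g ∈ X ∧ p g ≠ p' g ∧
    Tr.val (u g) (s g) (p g) = q g ∧ Tr.val (u g) (s g) (p' g) = q g) →
  S.card ≤ 28 * X.card

/-- **StmtAssign.** Every facet is given to one of its vertices on the side `σ` of `c`, with bounded
multiplicity.
PROOF. For `g ∈ S` let `Z g` be the set of the vertices of `g` in `sd V σ c`; it has two different elements
`z, z'`.  `A = PJ σ c (sd V σ c)`; `Mx A (u g)` contains the different (`hPj`) images of `z, z'` (`hPjMx`), so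
`hExp` gives two different exposed points `a, a'` in it; `a = pj σ c x`, `a' = pj σ c x'`, and by `hPjMx` these
`x ≠ x'` are vertices of `g`; put `p g = x`, `p' g = x'`.  Let `X` be the set of the `x ∈ sd V σ c` such that
`pj σ c x` is the only maximiser on `A` of some `w`.  `hSparse` for `Y ⊆ X` and
`{g ∈ S | p g ∈ Y ∧ p' g ∈ Y}` gives the hypothesis of `hDeg` with `D = 28`. -/
def StmtAssign : Prop := ∀ (ι : Type) (V : Finset (E × ℝ)) (G : Finset ι) (u : ι → E) (s q : ι → ℝ),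
  Tr.Data V G u s q → ∀ (c : E × ℝ) (σ : ℝ), c ∈ V → σ * σ = 1 → ∀ (S : Finset ι), S ⊆ G →
  (∀ g ∈ S, u g ≠ 0 ∧ Tr.val (u g) (s g) c = q g ∧ ∃ z ∈ sd V σ c, ∃ z' ∈ sd V σ c, z ≠ z' ∧
    Tr.val (u g) (s g) z = q g ∧ Tr.val (u g) (s g) z' = q g) →
  ∃ x : ι → E × ℝ, (∀ g ∈ S, x g ∈ sd V σ c ∧ Tr.val (u g) (s g) (x g) = q g) ∧
    ∀ v, (@Finset.filter ι (fun g => x g = v) (Classical.decPred _) S).card ≤ 56

/-- **StmtPair.** Facets given to a pair of classes.  `V'` is the union of a subset of the layer `t₁`, a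
subset of the layer `t₂` and a subset of the layer `t₃` (only these layers of `V'` are used).
PROOF. `hMatch` gives `W ⊆ S` with `|S| ≤ 2 M |W|` on which `x` and `y` are injective.  Claim:
`|W| ≤ 12 * evd V' t₁ t₂ t₃ c + 6`.  `hMulti` with `N = 1`, `A = AA V' t₁ t₂ t₃`, `B = BB V' t₁ t₂ t₃`,
`C = CC V' t₂`, `c := c.1`, `r` the exposing functional of `c` (`Data.exp`), and the set `W.image u`.
`ConvPos`: `Tr.convPos_img` for `V'` (the functional of `V` works for `V'`).  `InR`, `Mx C r = {c.1}`: `hRay`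
for `V'`.  For `g ∈ W`: with `nn` for `V'` and `x g ∈ Zr V' .. t₁`, `y g ∈ Zr V' .. t₃`, `Zr V' .. t₂ = {c}`
the tie, `Mx C (u g) = {c.1}` and `u g ≠ 0` are proved as in `Pool/Agent/KPH/TieD.lean` (the proof of `t_TieD`
uses of `Data` only `nn` and `nz`; it has to be repeated for `V'`).  `(2 * wt ..) • (x g).1 ∈ Mx A (u g)`
(`Tr.mem_Mx_img`).  `u` is injective on `W`, and `κ > 0`, `u g' = κ • u g` give `g = g'`, by `hDet` (both
facets touch the layers `t₁` and `t₂`).  Condition on triples (of different elements `u g₁, u g₂, u g₃`): if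
`Mx A (u g₁)` has fewer than two elements it is `{(2 wt) • (x g₁).1}`, and `(2 wt) • (x g₂).1`, which is
different (`Tr.injOn`, `x` is injective on `W`), is in `Mx A (u g₂)`; so `Mx A (u g₁) ≠ Mx A (u g₂)`.  The same
for `B` and `y`.  Last condition: two different elements of `Mx A` common to the three are images of two
different vertices common to the three facets (`Tr.mem_Mx_img`); with `c` this contradicts `Data.two`
(the three facets are different, a set of three facets). -/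
def StmtPair : Prop := ∀ (ι : Type) (V : Finset (E × ℝ)) (G : Finset ι) (u : ι → E) (s q : ι → ℝ),
  Tr.Data V G u s q → ∀ (V' : Finset (E × ℝ)) (t₁ t₂ t₃ : ℝ) (c : E × ℝ) (S : Finset ι)
  (x y : ι → E × ℝ) (M : ℕ), V' ⊆ V → Btw t₁ t₂ t₃ → c ∈ Tr.lay V' t₂ → S ⊆ G →
  (∀ g ∈ S, x g ∈ Tr.lay V' t₁ ∧ Tr.val (u g) (s g) (x g) = q g ∧
    y g ∈ Tr.lay V' t₃ ∧ Tr.val (u g) (s g) (y g) = q g ∧ Zr V (u g) (s g) (q g) t₂ = {c}) →
  (∀ v, (@Finset.filter ι (fun g => x g = v) (Classical.decPred _) S).card ≤ M) →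
  (∀ v, (@Finset.filter ι (fun g => y g = v) (Classical.decPred _) S).card ≤ M) →
  S.card ≤ 2 * M * (12 * evd V' t₁ t₂ t₃ c + 6)

/-- **StmtMedian.** The types of facets.
PROOF. Let `z t = (Zr .. t).card`, and `τ` the finite set of the `t ∈ T` with `0 < z t`.  `∑_{t ∈ τ} z t ≥ 5`
(`Data.five`; the set `Z` there is contained in the disjoint union of the `Zr .. t`, `t ∈ τ`).  Suppose that
(1) and (2) fail: all `z t ≤ 2`, and `z t = 1` if `t ∈ τ` is neither the minimum nor the maximum of `τ`.  So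
`τ` has at least three elements.  Let `t₁ = min τ`.  If `z t₁ = 2` let `t₂` be the second smallest element of
`τ`, otherwise the third smallest (then `τ` has at least four elements).  In both cases there are
exactly two vertices of `g` below `t₂`, `t₂` is not the maximum of `τ` (the number of all vertices is at
least 5 and `z ≤ 2` for the maximum), so `z t₂ = 1`, `Zr .. t₂ = {c}`, and at least `5 - 2 - 1 = 2`
vertices of `g` are above `t₂`.  (See the proof of `t_Class` in `Pool/Agent/KPH/Class.lean`.) -/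
def StmtMedian : Prop := ∀ (ι : Type) (V : Finset (E × ℝ)) (G : Finset ι) (u : ι → E) (s q : ι → ℝ),
  Tr.Data V G u s q → ∀ (T : Finset ℝ), (∀ v ∈ V, v.2 ∈ T) → ∀ g ∈ G,
  (∃ t ∈ T, 3 ≤ (Zr V (u g) (s g) (q g) t).card) ∨
  (∃ t₁ ∈ T, ∃ t₂ ∈ T, ∃ t₃ ∈ T, Btw t₁ t₂ t₃ ∧ (Zr V (u g) (s g) (q g) t₂).card = 2 ∧
    (Zr V (u g) (s g) (q g) t₁).Nonempty ∧ (Zr V (u g) (s g) (q g) t₃).Nonempty) ∨
  (∃ c ∈ V, Zr V (u g) (s g) (q g) c.2 = {c} ∧
    ∀ σ : ℝ, σ = 1 ∨ σ = -1 → ∃ z ∈ sd V σ c, ∃ z' ∈ sd V σ c, z ≠ z' ∧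
      Tr.val (u g) (s g) z = q g ∧ Tr.val (u g) (s g) z' = q g)

/-- **StmtPart.** Classes.
PROOF. For each `t ∈ T` number the layer: `Finset.equivFin (Tr.lay V t)` (or `Finset.equivFinOfCardEq`), so
there is an injective function `i` on `Tr.lay V t` with values `< n_t = |Tr.lay V t|`.  Put
`cl v = (v.2, i v / m)` (natural division), `J` the set of the pairs `(t, j)`, `t ∈ T`, `j < n_t / m + 1`
(for example `T.biUnion (fun t => (Finset.range (n_t / m + 1)).image (fun j => (t, j)))`).  A fibre of `cl` has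
at most `m` elements: `i v ∈ [m j, m j + m)`.  `m |J| ≤ m ∑_t (n_t / m + 1) ≤ ∑_t n_t + m |T| = |V| + m |T|`. -/
def StmtPart : Prop := ∀ (V : Finset (E × ℝ)) (T : Finset ℝ) (m : ℕ), (∀ v ∈ V, v.2 ∈ T) → 0 < m →
  ∃ (J : Finset (ℝ × ℕ)) (cl : E × ℝ → ℝ × ℕ), (∀ v ∈ V, cl v ∈ J ∧ (cl v).1 = v.2) ∧
    (∀ j : ℝ × ℕ, (@Finset.filter (E × ℝ) (fun v => cl v = j) (Classical.decPred _) V).card ≤ m) ∧
    m * J.card ≤ V.card + m * T.card

/-- **StmtMain.** The facets of the third type of `StmtMedian`.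
PROOF. For `g ∈ S` let `c g` be the given vertex.  For every `c ∈ V` let `S_c = {g ∈ S | c g = c}`; `hAssign`
for `S_c` and `σ = -1`, `σ = 1` gives `x`, `y` (depending on `c`; combine them to functions of `g`).  Let
`J`, `cl` be as in `StmtPart`.  `|S| ≤ ∑_{c ∈ V} ∑_{j₁ ∈ J} ∑_{j₃ ∈ J} |S_{c,j₁,j₃}|`, where
`S_{c,j₁,j₃} = {g ∈ S_c | cl (x g) = j₁, cl (y g) = j₃}`, and
`∑_{c ∈ V} = ∑_{j₂ ∈ J} ∑_{c ∈ V, cl c = j₂}` (or sum over `J ×ˢ J ×ˢ J` with fibres).  Fix `j₁, j₂, j₃`, let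
`t_i` be the first component of `j_i`, and `V' = {v ∈ V | cl v = j₁ ∨ cl v = j₂ ∨ cl v = j₃}`.  If some
`S_{c,j₁,j₃}`, `cl c = j₂`, is not empty, then `t₁ < t₂ < t₃` (`sd`), `Btw t₁ t₂ t₃`, the layers of `V'` are the
classes `j₁, j₂, j₃`, so they have at most `m` elements.  `hPair` with `M = 56`:
`|S_{c,j₁,j₃}| ≤ 112 * (12 * evd V' t₁ t₂ t₃ c + 6)`.  Sum over `c` in the class `j₂`, which is
`Tr.lay V' t₂`: at most `1344 * Wd V' t₁ t₂ t₃ + 672 * m`, and `(Wd ..)^2 ≤ K (3 m)^3` (`hWd`), so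
`Wd .. ≤ √(K (3 m)^3)`.  Sum over `J³`. -/
def StmtMain : Prop := ∃ K : ℝ, 0 < K ∧ ∀ (ι : Type) (V : Finset (E × ℝ)) (G : Finset ι) (u : ι → E)
  (s q : ι → ℝ), Tr.Data V G u s q → ∀ (S : Finset ι), S ⊆ G →
  (∀ g ∈ S, u g ≠ 0 ∧ ∃ c ∈ V, Zr V (u g) (s g) (q g) c.2 = {c} ∧
    ∀ σ : ℝ, σ = 1 ∨ σ = -1 → ∃ z ∈ sd V σ c, ∃ z' ∈ sd V σ c, z ≠ z' ∧
      Tr.val (u g) (s g) z = q g ∧ Tr.val (u g) (s g) z' = q g) →
  ∀ (m : ℕ) (J : Finset (ℝ × ℕ)) (cl : E × ℝ → ℝ × ℕ), 0 < m →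
  (∀ v ∈ V, cl v ∈ J ∧ (cl v).1 = v.2) →
  (∀ j : ℝ × ℕ, (@Finset.filter (E × ℝ) (fun v => cl v = j) (Classical.decPred _) V).card ≤ m) →
  (S.card : ℝ) ≤ K * (J.card : ℝ) ^ 3 * (m : ℝ) ^ (3 / 2 : ℝ)

/-- **StmtTotalX.** The bound for facet data.
PROOF. Let `T' = V.image Prod.snd`, `k' = |T'|`, `n = |V|`; `k' ≤ |T|` (`T' ⊆ T`), `k' ≤ n`, and if `V` is empty
then `G` is empty (`Data.five`); so let `1 ≤ k' ≤ n`.  It is enough to prove the bound with `k'`.
`G` is covered by: `u g = 0` (at most `k'`, `hZero`); (1) of `hMedian` for `u g ≠ 0`: for each `t ∈ T'` at most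
`4 n_t` (`Tr.count_three` with `TPH.Closed.edge_lin`), in total `4 n`; (2): for each `(t₁,t₂,t₃) ∈ T'³` at most
`24 n_{t₂} + 2 n_{t₁}` (`hMid`), in total at most `26 k'² n`; (3) `hMain` with `hPart` for
`m = (n + k' - 1) / k'` or simply `m = n / k' + 1`: `n / k' < m ≤ 2 n / k'`, so
`|J| ≤ n / m + k' ≤ 2 k'`, at most `K (2 k')^3 (2 n / k')^(3/2) = K' k'^(3/2) n^(3/2)`.  As `k' ≤ n`,
`k'² n ≤ k'^(3/2) n^(3/2)`, and `k'`, `n` are at most `k'^(3/2) n^(3/2)` as well. -/
def StmtTotalX : Prop := ∃ K : ℝ, 0 < K ∧ ∀ (ι : Type) (V : Finset (E × ℝ)) (G : Finset ι) (u : ι → E)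
  (s q : ι → ℝ), Tr.Data V G u s q → ∀ T : Finset ℝ, (∀ v ∈ V, v.2 ∈ T) →
  (G.card : ℝ) ≤ K * (T.card : ℝ) ^ (3 / 2 : ℝ) * (V.card : ℝ) ^ (3 / 2 : ℝ)

end KPX
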