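import Pool.Agent.KPX.Main

/-!
# Vertices on `k` parallel hyperplanes: pairs of a facet and a single vertex in the middle

Weighted form of `StmtMain`: every facet is counted with all its vertices `c` which are the only vertex of the
facet in their layer and have two vertices strictly below and two strictly above.
-/

set_option autoImplicit false

namespace KPX

open TPH KPH

/-- **StmtMainP.** The weighted form of `StmtMain`, for a family `S c`, `c ∈ V`, of sets of facets. -/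
def StmtMainP : Prop := ∃ K : ℝ, 0 < K ∧ ∀ (ι : Type) (V : Finset (E × ℝ)) (G : Finset ι) (u : ι → E)
  (s q : ι → ℝ), Tr.Data V G u s q → ∀ (S : E × ℝ → Finset ι), (∀ c ∈ V, S c ⊆ G) →
  (∀ c ∈ V, ∀ g ∈ S c, u g ≠ 0 ∧ Zr V (u g) (s g) (q g) c.2 = {c} ∧
    ∀ σ : ℝ, σ = 1 ∨ σ = -1 → ∃ z ∈ sd V σ c, ∃ z' ∈ sd V σ c, z ≠ z' ∧
      Tr.val (u g) (s g) z = q g ∧ Tr.val (u g) (s g) z' = q g) →
  ∀ (m : ℕ) (J : Finset (ℝ × ℕ)) (cl : E × ℝ → ℝ × ℕ), 0 < m →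
  (∀ v ∈ V, cl v ∈ J ∧ (cl v).1 = v.2) →
  (∀ j : ℝ × ℕ, (@Finset.filter (E × ℝ) (fun v => cl v = j) (Classical.decPred _) V).card ≤ m) →
  (∑ c ∈ V, ((S c).card : ℝ)) ≤ K * (J.card : ℝ) ^ 3 * (m : ℝ) ^ (3 / 2 : ℝ)

namespace MMainP

open MMain

open Classical in
/-- The pairs given to three classes. -/
theorem cell (hPair : StmtPair) {ι : Type} {V : Finset (E × ℝ)} {G : Finset ι} {u : ι → E}
    {s q : ι → ℝ} (D : Tr.Data V G u s q) {S : E × ℝ → Finset ι} (hS : ∀ c ∈ V, S c ⊆ G)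
    (x y : E × ℝ → ι → E × ℝ)
    (hcZ : ∀ c ∈ V, ∀ g ∈ S c, Zr V (u g) (s g) (q g) c.2 = {c})
    (hx : ∀ c ∈ V, ∀ g ∈ S c, x c g ∈ sd V (-1) c ∧ Tr.val (u g) (s g) (x c g) = q g)
    (hy : ∀ c ∈ V, ∀ g ∈ S c, y c g ∈ sd V 1 c ∧ Tr.val (u g) (s g) (y c g) = q g)
    (hxm : ∀ c ∈ V, ∀ v, ((S c).filter (fun g => x c g = v)).card ≤ 56)
    (hym : ∀ c ∈ V, ∀ v, ((S c).filter (fun g => y c g = v)).card ≤ 56)
    {m : ℕ} {cl : E × ℝ → ℝ × ℕ} (hcl : ∀ v ∈ V, (cl v).1 = v.2)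
    (hm : ∀ j : ℝ × ℕ, (V.filter (fun v => cl v = j)).card ≤ m)
    (j₁ j₂ j₃ : ℝ × ℕ) (K : ℕ)
    (hK : ∀ (V : Finset (E × ℝ)) (t₁ t₂ t₃ : ℝ), Btw t₁ t₂ t₃ →
      (∀ v ∈ V, ∃ (u : E) (s : ℝ), ∀ v' ∈ V, v' ≠ v → Tr.val u s v' < Tr.val u s v) →
      (Wd V t₁ t₂ t₃) ^ 2 ≤ K * ((Tr.lay V t₁).card + (Tr.lay V t₂).card + (Tr.lay V t₃).card) ^ 3) :
    (∑ c ∈ V.filter (fun c => cl c = j₂),
      (((S c).filter (fun g => cl (x c g) = j₁ ∧ cl (y c g) = j₃)).card : ℝ)) ≤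
      1344 * (Real.sqrt (27 * K) * (m : ℝ) ^ (3 / 2 : ℝ)) + 672 * m := by
  set F : E × ℝ → Finset ι :=
    fun c => (S c).filter (fun g => cl (x c g) = j₁ ∧ cl (y c g) = j₃) with hF
  by_cases h0 : ∀ c ∈ V.filter (fun c => cl c = j₂), F c = ∅
  · rw [Finset.sum_eq_zero (fun c hc => by
      rw [show (S c).filter (fun g => cl (x c g) = j₁ ∧ cl (y c g) = j₃) = F c from rfl, h0 c hc,
        Finset.card_empty, Nat.cast_zero])]
    positivity
  push Not at h0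
  obtain ⟨c₀, hc₀, hne⟩ := h0
  obtain ⟨g₀, hg₀⟩ := hne
  obtain ⟨hc₀V, a2⟩ := Finset.mem_filter.1 hc₀
  have hsd : ∀ (σ : ℝ) (c v : E × ℝ), v ∈ sd V σ c → v ∈ V ∧ 0 < σ * (v.2 - c.2) := by
    intro σ c v hv
    exact Finset.mem_filter.1 hv
  -- heights
  obtain ⟨a0, a1, a3⟩ := Finset.mem_filter.1 hg₀
  have b1 := hsd _ _ _ (hx c₀ hc₀V g₀ a0).1
  have b3 := hsd _ _ _ (hy c₀ hc₀V g₀ a0).1
  have e1 : j₁.1 = (x c₀ g₀).2 := by rw [← a1]; exact hcl _ b1.1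
  have e2 : j₂.1 = c₀.2 := by rw [← a2]; exact hcl _ hc₀V
  have e3 : j₃.1 = (y c₀ g₀).2 := by rw [← a3]; exact hcl _ b3.1
  have l12 : j₁.1 < j₂.1 := by
    rw [e1, e2]
    have := b1.2
    linarith
  have l23 : j₂.1 < j₃.1 := by
    rw [e2, e3]
    have := b3.2
    linarith
  have hB : Btw j₁.1 j₂.1 j₃.1 := Or.inl ⟨l12, l23⟩
  -- the union of the three classes
  set V' : Finset (E × ℝ) := V.filter (fun v => cl v = j₁ ∨ cl v = j₂ ∨ cl v = j₃) with hV'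
  have hV'V : V' ⊆ V := Finset.filter_subset _ _
  have lay1 : Tr.lay V' j₁.1 ⊆ V.filter (fun v => cl v = j₁) := by
    intro v hv
    obtain ⟨h1, h2⟩ := Tr.mem_lay.1 hv
    obtain ⟨h3, h4⟩ := Finset.mem_filter.1 h1
    have h5 := hcl v h3
    refine Finset.mem_filter.2 ⟨h3, ?_⟩
    rcases h4 with h | h | h
    · exact h
    · rw [h] at h5
      exfalso
      rw [← h2] at l12
      linarith
    · rw [h] at h5
      exfalso
      rw [← h2] at l12
      linarith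
  have lay2 : Tr.lay V' j₂.1 ⊆ V.filter (fun v => cl v = j₂) := by
    intro v hv
    obtain ⟨h1, h2⟩ := Tr.mem_lay.1 hv
    obtain ⟨h3, h4⟩ := Finset.mem_filter.1 h1
    have h5 := hcl v h3
    refine Finset.mem_filter.2 ⟨h3, ?_⟩
    rcases h4 with h | h | h
    · rw [h] at h5
      exfalso
      rw [← h2] at l12
      linarith
    · exact h
    · rw [h] at h5
      exfalso
      rw [← h2] at l23
      linarith
  have lay3 : Tr.lay V' j₃.1 ⊆ V.filter (fun v => cl v = j₃) := by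
    intro v hv
    obtain ⟨h1, h2⟩ := Tr.mem_lay.1 hv
    obtain ⟨h3, h4⟩ := Finset.mem_filter.1 h1
    have h5 := hcl v h3
    refine Finset.mem_filter.2 ⟨h3, ?_⟩
    rcases h4 with h | h | h
    · rw [h] at h5
      exfalso
      rw [← h2] at l23
      linarith
    · rw [h] at h5
      exfalso
      rw [← h2] at l23
      linarith
    · exact h
  have c1 : (Tr.lay V' j₁.1).card ≤ m := (Finset.card_le_card lay1).trans (hm _)
  have c2 : (Tr.lay V' j₂.1).card ≤ m := (Finset.card_le_card lay2).trans (hm _)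
  have c3 : (Tr.lay V' j₃.1).card ≤ m := (Finset.card_le_card lay3).trans (hm _)
  have hexp : ∀ v ∈ V', ∃ (u : E) (s : ℝ), ∀ v' ∈ V', v' ≠ v → Tr.val u s v' < Tr.val u s v := by
    intro v hv
    obtain ⟨r, s₀, h⟩ := D.exp v (hV'V hv)
    exact ⟨r, s₀, fun v' hv' hne => h v' (hV'V hv') hne⟩
  have hW := wd_bound c1 c2 c3 (hK V' j₁.1 j₂.1 j₃.1 hB hexp)
  have hmap : ∀ c ∈ V.filter (fun c => cl c = j₂), c ∈ Tr.lay V' j₂.1 := by
    intro c hc
    obtain ⟨d0, d2⟩ := Finset.mem_filter.1 hc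
    refine Tr.mem_lay.2 ⟨Finset.mem_filter.2 ⟨d0, Or.inr (Or.inl d2)⟩, ?_⟩
    rw [← hcl _ d0, d2]
  have hfib : ∀ c ∈ V.filter (fun c => cl c = j₂),
      (F c).card ≤ 2 * 56 * (12 * evd V' j₁.1 j₂.1 j₃.1 c + 6) := by
    intro c hc
    have hcl2 := hmap c hc
    obtain ⟨hcV, hcj⟩ := Finset.mem_filter.1 hc
    have hsub : F c ⊆ S c := Finset.filter_subset _ _
    refine hPair ι V G u s q D V' j₁.1 j₂.1 j₃.1 c (F c) (x c) (y c) 56
      hV'V hB hcl2 (fun g hg => hS c hcV (hsub hg)) ?_ ?_ ?_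
    · intro g hg
      obtain ⟨hgS, d1, d3⟩ := Finset.mem_filter.1 hg
      have x1 := hx c hcV g hgS
      have y1 := hy c hcV g hgS
      have z1 := hcZ c hcV g hgS
      have hj2 : j₂.1 = c.2 := by rw [← hcj]; exact hcl _ hcV
      rw [← hj2] at z1
      have x2 := hsd _ _ _ x1.1
      have y2 := hsd _ _ _ y1.1
      refine ⟨Tr.mem_lay.2 ⟨Finset.mem_filter.2 ⟨x2.1, Or.inl d1⟩, ?_⟩, x1.2,
        Tr.mem_lay.2 ⟨Finset.mem_filter.2 ⟨y2.1, Or.inr (Or.inr d3)⟩, ?_⟩, y1.2, z1⟩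
      · rw [← hcl _ x2.1, d1]
      · rw [← hcl _ y2.1, d3]
    · intro v
      have h5 : ((F c).filter (fun g => x c g = v)).card ≤ 56 :=
        le_trans (Finset.card_le_card (Finset.filter_subset_filter _ hsub)) (hxm c hcV v)
      convert h5
    · intro v
      have h5 : ((F c).filter (fun g => y c g = v)).card ≤ 56 :=
        le_trans (Finset.card_le_card (Finset.filter_subset_filter _ hsub)) (hym c hcV v)
      convert h5
  have hsum : ∑ c ∈ V.filter (fun c => cl c = j₂), (F c).card ≤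
      1344 * Wd V' j₁.1 j₂.1 j₃.1 + 672 * m := by
    calc ∑ c ∈ V.filter (fun c => cl c = j₂), (F c).card
        ≤ ∑ c ∈ V.filter (fun c => cl c = j₂), 2 * 56 * (12 * evd V' j₁.1 j₂.1 j₃.1 c + 6) :=
          Finset.sum_le_sum hfib
      _ ≤ ∑ c ∈ Tr.lay V' j₂.1, 2 * 56 * (12 * evd V' j₁.1 j₂.1 j₃.1 c + 6) :=
          Finset.sum_le_sum_of_subset hmap
      _ = 1344 * Wd V' j₁.1 j₂.1 j₃.1 + 672 * (Tr.lay V' j₂.1).card := by
          rw [← Finset.mul_sum, Finset.sum_add_distrib, ← Finset.mul_sum, Finset.sum_const,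
            smul_eq_mul, Wd]
          ring
      _ ≤ 1344 * Wd V' j₁.1 j₂.1 j₃.1 + 672 * m := by
          have := Nat.mul_le_mul_left 672 c2
          omega
  have hsum' : (∑ c ∈ V.filter (fun c => cl c = j₂), ((F c).card : ℝ)) ≤
      1344 * (Wd V' j₁.1 j₂.1 j₃.1 : ℝ) + 672 * m := by exact_mod_cast hsum
  linarith

end MMainP

open MMain MMainP in
open Classical in
theorem t_MainP (hWd : KPH.StmtWd) (hAssign : StmtAssign) (hPair : StmtPair) : StmtMainP := by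
  obtain ⟨K, hK⟩ := hWd
  refine ⟨1344 * Real.sqrt (27 * K) + 672, by positivity, ?_⟩
  intro ι V G u s q D S hS hSc m J cl hm0 hcl hm
  have hval : ∀ c ∈ V, ∀ g ∈ S c, Tr.val (u g) (s g) c = q g := by
    intro c hc g hg
    have h := (hSc c hc g hg).2.1
    have h1 : c ∈ Zr V (u g) (s g) (q g) c.2 := by
      rw [h]
      exact Finset.mem_singleton_self _
    exact (Tr.mem_zer.1 h1).2.2
  -- the lower and the upper vertex
  have hA : ∀ σ : ℝ, σ = 1 ∨ σ = -1 → ∀ c : E × ℝ, ∃ x : ι → E × ℝ, c ∈ V →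
      (∀ g ∈ S c, x g ∈ sd V σ c ∧ Tr.val (u g) (s g) (x g) = q g) ∧
      ∀ v, ((S c).filter (fun g => x g = v)).card ≤ 56 := by
    intro σ hσ c
    by_cases hc : c ∈ V
    · have hσ2 : σ * σ = 1 := by rcases hσ with h | h <;> rw [h] <;> norm_num
      obtain ⟨x, h1, h2⟩ := hAssign ι V G u s q D c σ hc hσ2 (S c) (hS c hc)
        (fun g hg => ⟨(hSc c hc g hg).1, hval c hc g hg, (hSc c hc g hg).2.2 σ hσ⟩)
      refine ⟨x, fun _ => ⟨h1, fun v => ?_⟩⟩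
      convert h2 v
    · exact ⟨fun _ => 0, fun h => absurd h hc⟩
  choose x hx using hA (-1) (Or.inr rfl)
  choose y hy using hA 1 (Or.inl rfl)
  have hm' : ∀ j : ℝ × ℕ, (V.filter (fun v => cl v = j)).card ≤ m := by
    intro j
    convert hm j
  have hsd : ∀ (σ : ℝ) (c v : E × ℝ), v ∈ sd V σ c → v ∈ V := by
    intro σ c v hv
    exact (Finset.mem_filter.1 hv).1
  set B : ℝ := 1344 * (Real.sqrt (27 * K) * (m : ℝ) ^ (3 / 2 : ℝ)) + 672 * m with hB
  -- the sum over the classes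
  have hone : ∀ c ∈ V, ((S c).card : ℝ) = ∑ p ∈ J ×ˢ J,
      (((S c).filter (fun g => cl (x c g) = p.1 ∧ cl (y c g) = p.2)).card : ℝ) := by
    intro c hc
    have h := Finset.card_eq_sum_card_fiberwise (s := S c) (t := J ×ˢ J)
      (f := fun g => (cl (x c g), cl (y c g))) (by
        intro g hg
        have h1 := (hcl _ (hsd _ _ _ ((hx c hc).1 g hg).1)).1
        have h3 := (hcl _ (hsd _ _ _ ((hy c hc).1 g hg).1)).1
        exact Finset.mem_product.2 ⟨h1, h3⟩)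
    rw [h]
    push_cast
    refine Finset.sum_congr rfl (fun p _ => ?_)
    congr 2
    ext g
    simp only [Finset.mem_filter, Prod.ext_iff]
  have hcells : ∀ p ∈ J ×ˢ J, ∀ j₂ ∈ J, (∑ c ∈ V.filter (fun c => cl c = j₂),
      (((S c).filter (fun g => cl (x c g) = p.1 ∧ cl (y c g) = p.2)).card : ℝ)) ≤ B := by
    intro p _ j₂ _
    exact cell hPair D hS x y (fun c hc g hg => (hSc c hc g hg).2.1)
      (fun c hc g hg => (hx c hc).1 g hg) (fun c hc g hg => (hy c hc).1 g hg)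
      (fun c hc v => (hx c hc).2 v) (fun c hc v => (hy c hc).2 v)
      (fun v hv => (hcl v hv).2) hm' p.1 j₂ p.2 K hK
  have hsum : (∑ c ∈ V, ((S c).card : ℝ)) ≤ (J.card : ℝ) * ((J.card : ℝ) * (J.card : ℝ)) * B := by
    calc (∑ c ∈ V, ((S c).card : ℝ)) = ∑ c ∈ V, ∑ p ∈ J ×ˢ J,
          (((S c).filter (fun g => cl (x c g) = p.1 ∧ cl (y c g) = p.2)).card : ℝ) :=
          Finset.sum_congr rfl hone
      _ = ∑ p ∈ J ×ˢ J, ∑ c ∈ V,
          (((S c).filter (fun g => cl (x c g) = p.1 ∧ cl (y c g) = p.2)).card : ℝ) :=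
          Finset.sum_comm
      _ = ∑ p ∈ J ×ˢ J, ∑ j₂ ∈ J, ∑ c ∈ V.filter (fun c => cl c = j₂),
          (((S c).filter (fun g => cl (x c g) = p.1 ∧ cl (y c g) = p.2)).card : ℝ) :=
          Finset.sum_congr rfl (fun p _ =>
            (Finset.sum_fiberwise_of_maps_to (fun c hc => (hcl c hc).1) _).symm)
      _ ≤ ∑ p ∈ J ×ˢ J, ∑ j₂ ∈ J, B :=
          Finset.sum_le_sum (fun p hp => Finset.sum_le_sum (fun j hj => hcells p hp j hj))
      _ = (J.card : ℝ) * ((J.card : ℝ) * (J.card : ℝ)) * B := by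
          rw [Finset.sum_const, Finset.sum_const, Finset.card_product, nsmul_eq_mul, nsmul_eq_mul]
          push_cast
          ring
  have hmr := le_rpow hm0
  have hJ : (0 : ℝ) ≤ (J.card : ℝ) := Nat.cast_nonneg _
  calc (∑ c ∈ V, ((S c).card : ℝ)) ≤ (J.card : ℝ) * ((J.card : ℝ) * (J.card : ℝ)) * B := hsum
    _ ≤ (J.card : ℝ) * ((J.card : ℝ) * (J.card : ℝ)) *
        (1344 * (Real.sqrt (27 * K) * (m : ℝ) ^ (3 / 2 : ℝ)) + 672 * (m : ℝ) ^ (3 / 2 : ℝ)) := by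
        refine mul_le_mul_of_nonneg_left ?_ (by positivity)
        rw [hB]
        linarith
    _ = (1344 * Real.sqrt (27 * K) + 672) * (J.card : ℝ) ^ 3 * (m : ℝ) ^ (3 / 2 : ℝ) := by ring

end KPX
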